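import Pool.Agent.Helper14.DY.Core2

/-!
# GAP1 with `h = d2` and the labels `b1 = 0`, `bO = 1/2`, `b2 > 1` (MP_d13a5e_al)
-/

set_option autoImplicit false

namespace DY

open Set

variable {E : Type*} [AddCommGroup E] [Module ℝ E]
variable {Ψ : Set E} {B : E →ₗ[ℝ] E →ₗ[ℝ] ℝ} {ρ φ : E →ₗ[ℝ] ℝ} {t d1 d2 x x' : E}

/-- the pencil of `t` and a root `a t + d1 + c d2` -/
theorem Loc.str_one14 (L : Loc Ψ B ρ φ t d1 d2 x x') (n : E) (a c : ℝ) (hn : n ∈ Ψ)
    (e : n = a • t + d1 + c • d2) : Str (-B t n) (φ n) (ρ n) := by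
  have e1 : n = a • t + (1 : ℝ) • d1 + c • d2 := by rw [e]; module
  have hp : n ∈ C01 t d1 d2 := by
    rcases L.tri.pos n hn with h | h
    · exact h
    · exfalso
      obtain ⟨α, β, γ, h1, -, h2, -⟩ := h
      have h3 : (a + α) • t + (1 + β) • d1 + (c + γ) • d2 = 0 := by
        have : (a + α) • t + (1 + β) • d1 + (c + γ) • d2 =
          (a • t + (1 : ℝ) • d1 + c • d2) + (α • t + β • d1 + γ • d2) := by module
        rw [this, ← e1, ← h1, add_neg_cancel]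
      obtain ⟨-, h4, -⟩ := L.tri.indep _ _ _ h3
      rcases h2 with h2 | h2 <;> linarith
  have hne : n ≠ t := by
    intro h
    obtain ⟨-, h1, -⟩ := L.tri.indep (a - 1) 1 c (by
      have : (a - 1) • t + (1 : ℝ) • d1 + c • d2 = (a • t + (1 : ℝ) • d1 + c • d2) - t := by module
      rw [this, ← e1, h, sub_self])
    norm_num at h1
  exact L.str n hn hp hne

/-- GAP1, `h = d2`, `b1 = 0`, `bO = 1/2`, `b2 > 1` -/
theorem gap1_b10 (Ψ : Set E) (B : E →ₗ[ℝ] E →ₗ[ℝ] ℝ) :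
    GAPStat Ψ B fun t d1 d2 _ _ be1 _ => be1 = 0 ∧ B t d1 = 0 ∧ B d1 d2 = -(1 / 2) ∧ 1 < -B t d2 := by
  intro ρ φ t d1 d2 x x' g x1 x2 g' x1' x2' al1 al2 be1 be2 X O hP _ _ _ _
  obtain ⟨h0, h10, hO, h2⟩ := hP
  subst h0
  have hn := O.rh.nrm
  have hd := O.det
  have ha := O.adj
  have hbe : be2 = 1 := by
    rcases O.rh.z2 with h | h
    · rw [h] at hn
      norm_num at hn
    · nlinarith
  subst hbe
  have hal1 : al1 = 1 := by linarith
  subst hal1
  rw [hO] at ha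
  have hal2 : al2 = 1 := by linarith
  subst hal2
  have hfa := O.fa
  exact X.cor.core10 h10 hO h2 (by linarith) X.L.str_2 fun n a c hn e _ _ => X.L.str_one14 n a c hn e

end DY
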