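import Pool.Agent.Helper14.DY.Re2

/-!
# Final inequalities for the labels `b1 = 0`, `bO = 1/2`: `j` even, `B < q u` (MP_d13a5e_al)
-/

set_option autoImplicit false

namespace Pool.Agent.Helper14.DY

theorem mu_cube {μ : ℝ} (hμ : 2 ≤ μ) : 4 ≤ μ ^ 3 - 2 * μ := by
  obtain ⟨v, hv⟩ : ∃ v, μ = 2 + v := ⟨μ - 2, by ring⟩
  have hv0 : 0 ≤ v := by linarith
  rw [hv]
  have e1 : (2 + v) ^ 3 - 2 * (2 + v) = 4 + (10 * v + 6 * v ^ 2 + v ^ 3) := by ring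
  rw [e1]
  have : 0 ≤ 10 * v + 6 * v ^ 2 + v ^ 3 := by positivity
  linarith

theorem k_small {μ k : ℝ} (hμ : 2 ≤ μ) (hk0 : 0 < k) (hk1 : k < 1)
    (hk : (μ ^ 3 - 2 * μ) * k ≤ k ^ 2 + 1) : k ≤ 268 / 1000 := by
  have h1 := mu_cube hμ
  have h2 : 4 * k ≤ (μ ^ 3 - 2 * μ) * k := mul_le_mul_of_nonneg_right h1 hk0.le
  by_contra hcon
  rw [not_le] at hcon
  have h3 : 0 < (k - 268 / 1000) * (1 - k) := mul_pos (by linarith) (by linarith)
  have h4 : (k - 268 / 1000) * (1 - k) = k - k ^ 2 - 268 / 1000 + 268 / 1000 * k := by ring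
  linarith

/-- `N = 0` -/
theorem even2_zero {μ k B u : ℝ} (hμ : 2 ≤ μ) (hk0 : 0 < k) (hk1 : k < 1)
    (hk : (μ ^ 3 - 2 * μ) * k ≤ k ^ 2 + 1) (hu : 1 ≤ u) (hP : 1 ≤ μ * B - u) (hB : B < u) (hB1 : 1 ≤ B)
    (hn : B ^ 2 + u ^ 2 - μ * u * B = 1) : 1 ≤ B - k * u := by
  have hks := k_small hμ hk0 hk1 hk
  have h1 : k * (16 / 10 * μ - 1) ≤ 6 / 10 := by
    by_contra hcon
    rw [not_le] at hcon
    have h2 : 16 / 10 * μ - 1 ≤ 6 / 10 * (μ ^ 3 - 2 * μ - k) := by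
      obtain ⟨v, hv⟩ : ∃ v, μ = 2 + v := ⟨μ - 2, by ring⟩
      have hv0 : 0 ≤ v := by linarith
      have e1 : 6 / 10 * ((2 + v) ^ 3 - 2 * (2 + v) - k) - (16 / 10 * (2 + v) - 1) =
          2 / 10 - 6 / 10 * k + (44 / 10 * v + 36 / 10 * v ^ 2 + 6 / 10 * v ^ 3) := by ring
      have e2 : 0 ≤ 44 / 10 * v + 36 / 10 * v ^ 2 + 6 / 10 * v ^ 3 := by positivity
      rw [hv]
      linarith
    have h3 := mul_le_mul_of_nonneg_left h2 hk0.le
    linarith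
  have h2 : 16 / 10 ≤ B := by
    have h3 : u * 1 ≤ u * (μ * B - u) := mul_le_mul_of_nonneg_left hP (by linarith)
    have h4 : B < B ^ 2 - 1 := by linarith
    by_contra hcon
    rw [not_le] at hcon
    have h5 : B * B ≤ 16 / 10 * B := mul_le_mul_of_nonneg_right hcon.le (by linarith)
    linarith
  have h3 : 0 ≤ 1 - k * μ := by linarith
  have h4 : (1 - k * μ) * (16 / 10) ≤ (1 - k * μ) * B := mul_le_mul_of_nonneg_left h2 h3
  have h5 : k * 1 ≤ k * (μ * B - u) := mul_le_mul_of_nonneg_left hP hk0.le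
  linarith

/-- lower bound for `u` -/
theorem u_low {μ q m u : ℝ} (hq : q ^ 2 + 1 = μ * q) (hq0 : 0 < q) (hu : 1 ≤ u)
    (hm : m = μ ^ 2 - 2) (hm2 : 2 ≤ m)
    (h3 : 2 * (q ^ 2 + 1) ^ 2 ≤ (q ^ 2 * u - 2) * (u - 2 * q ^ 2)) : 2 * m + 8 / 10 ≤ u := by
  have hqm : q ^ 2 * m = q ^ 4 + 1 := by
    have : q ^ 2 * μ ^ 2 = (q ^ 2 + 1) ^ 2 := by rw [hq]; ring
    rw [hm]
    linear_combination this
  have h4 : 2 * m ≤ u * (u - 2 * m) := by
    have h5 : q ^ 2 * (2 * m) ≤ q ^ 2 * (u * (u - 2 * m)) := by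
      have e1 : q ^ 2 * (u * (u - 2 * m)) = q ^ 2 * u ^ 2 - 2 * (q ^ 2 * m) * u := by ring
      have e2 : q ^ 2 * (2 * m) = 2 * (q ^ 2 * m) := by ring
      rw [e1, e2, hqm]
      have e3 : (q ^ 2 * u - 2) * (u - 2 * q ^ 2) - 2 * (q ^ 2 + 1) ^ 2 =
        q ^ 2 * u ^ 2 - 2 * (q ^ 4 + 1) * u - 2 * (q ^ 4 + 1) := by ring
      linarith
    exact le_of_mul_le_mul_left h5 (by positivity)
  by_contra hcon
  rw [not_le] at hcon
  have h6 : 0 < u - 2 * m := by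
    by_contra h7
    have := mul_nonpos_of_nonneg_of_nonpos (by linarith : 0 ≤ u) (not_lt.1 h7)
    linarith
  have h7 : u * (u - 2 * m) ≤ (2 * m + 8 / 10) * (8 / 10) :=
    mul_le_mul hcon.le (by linarith) h6.le (by linarith)
  linarith

/-- `1 - k μ` against `2 m + 8/10` -/
theorem km_low {μ k m : ℝ} (hμ : 2 ≤ μ) (hm : m = μ ^ 2 - 2) (hk0 : 0 < k) (hks : k ≤ 268 / 1000)
    (hk : (μ ^ 3 - 2 * μ) * k ≤ k ^ 2 + 1) : μ ≤ (2 * m + 8 / 10) * (1 - k * μ) := by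
  obtain ⟨v, hv⟩ : ∃ v, μ = 2 + v := ⟨μ - 2, by ring⟩
  have hv0 : 0 ≤ v := by linarith
  have g1 : k * (μ ^ 3 - 2 * μ - 268 / 1000) ≤ 1 := by
    have : k * k ≤ k * (268 / 1000) := mul_le_mul_of_nonneg_left hks hk0.le
    linarith
  have g2 : 0 ≤ 2 * m + 8 / 10 - μ := by
    rw [hm, hv]
    have e1 : 2 * ((2 + v) ^ 2 - 2) + 8 / 10 - (2 + v) = 28 / 10 + 7 * v + 2 * v ^ 2 := by ring
    rw [e1]
    positivity
  have g3 : (2 * m + 8 / 10) * μ ≤ (2 * m + 8 / 10 - μ) * (μ ^ 3 - 2 * μ - 268 / 1000) := by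
    rw [hm, hv]
    have e1 : (2 * ((2 + v) ^ 2 - 2) + 8 / 10 - (2 + v)) * ((2 + v) ^ 3 - 2 * (2 + v) - 268 / 1000) -
        (2 * ((2 + v) ^ 2 - 2) + 8 / 10) * (2 + v) = 2 * v ^ 5 + 19 * v ^ 4 + 628 / 10 * v ^ 3 +
          82264 / 1000 * v ^ 2 + 33324 / 1000 * v + 8496 / 10000 := by ring
    have e2 : 0 ≤ 2 * v ^ 5 + 19 * v ^ 4 + 628 / 10 * v ^ 3 +
          82264 / 1000 * v ^ 2 + 33324 / 1000 * v + 8496 / 10000 := by positivity
    linarith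
  have g4 := mul_le_mul_of_nonneg_right g3 hk0.le
  have g5 := mul_le_mul_of_nonneg_left g1 g2
  linarith

/-- `N ≥ 1` -/
theorem even2_pos {μ q k B u N : ℝ} (hq : q ^ 2 + 1 = μ * q) (hq0 : 0 < q) (hq1 : q < 1) (hμ : 2 ≤ μ)
    (hk0 : 0 < k) (hk1 : k < 1) (hk : (μ ^ 3 - 2 * μ) * k ≤ k ^ 2 + 1) (hu : 1 ≤ u)
    (hN : 1 ≤ N) (hP : N ≤ μ * B - u - N) (hB : B < q * u)
    (hprod : (B - q * u) * (q * B - u) = q * (1 + N * (μ * B - u - N))) :
    1 ≤ B - q * N - k * u := by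
  have hks := k_small hμ hk0 hk1 hk
  obtain ⟨a, ha⟩ : ∃ a, a = q * u - B := ⟨_, rfl⟩
  have ha0 : 0 < a := by linarith
  have hBa : B = q * u - a := by linarith
  -- `2 N + μ a ≤ q² u`
  have hS : 2 * N + μ * a ≤ q ^ 2 * u := by
    have hP' := hP
    rw [hBa] at hP'
    have e1 : μ * (q * u - a) - u - N = (μ * q) * u - u - μ * a - N := by ring
    rw [e1, ← hq] at hP'
    linarith
  have hpr : 2 * q ≤ a * (q * a + (1 - q ^ 2) * u) := by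
    have e1 : (B - q * u) * (q * B - u) = a * (q * a + (1 - q ^ 2) * u) := by
      rw [hBa]
      ring
    rw [← e1, hprod]
    have h1 : 1 * 1 ≤ N * (μ * B - u - N) := mul_le_mul hN (by linarith) zero_le_one (by linarith)
    have h2 : q * (1 + 1 * 1) ≤ q * (1 + N * (μ * B - u - N)) :=
      mul_le_mul_of_nonneg_left (by linarith) hq0.le
    linarith
  have hμq : 0 < μ := by linarith
  have hq2' : q ^ 2 ≤ 1 := pow_le_one₀ hq0.le hq1.le
  have hq2 : 0 ≤ 1 - q ^ 2 := by linarith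
  -- `μ a ≤ q² u - 2`
  have h1 : μ * a ≤ q ^ 2 * u - 2 := by linarith
  have h2 : 0 < μ * a := mul_pos hμq ha0
  have h3 : 2 * (q ^ 2 + 1) ^ 2 ≤ (q ^ 2 * u - 2) * (u - 2 * q ^ 2) := by
    have e1 : q * (μ ^ 2 * (a * (q * a + (1 - q ^ 2) * u))) =
        (μ * a) * (q ^ 2 * (μ * a) + (μ * q) * (1 - q ^ 2) * u) := by ring
    have e2 : q * (μ ^ 2 * (2 * q)) ≤ q * (μ ^ 2 * (a * (q * a + (1 - q ^ 2) * u))) :=
      mul_le_mul_of_nonneg_left (mul_le_mul_of_nonneg_left hpr (sq_nonneg μ)) hq0.le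
    rw [e1, ← hq] at e2
    have e3 : q * (μ ^ 2 * (2 * q)) = 2 * (q ^ 2 + 1) ^ 2 := by rw [hq]; ring
    rw [e3] at e2
    have e4 : (μ * a) * (q ^ 2 * (μ * a) + (q ^ 2 + 1) * (1 - q ^ 2) * u) ≤
        (q ^ 2 * u - 2) * (q ^ 2 * (q ^ 2 * u - 2) + (q ^ 2 + 1) * (1 - q ^ 2) * u) := by
      apply mul_le_mul h1 _ _ (by linarith)
      · have := mul_le_mul_of_nonneg_left h1 (sq_nonneg q)
        linarith
      · have f1 : 0 ≤ q ^ 2 * (μ * a) := mul_nonneg (sq_nonneg q) h2.le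
        have f2 : 0 ≤ (q ^ 2 + 1) * (1 - q ^ 2) * u :=
          mul_nonneg (mul_nonneg (by positivity) hq2) (by linarith)
        linarith
    have e5 : (q ^ 2 * u - 2) * (q ^ 2 * (q ^ 2 * u - 2) + (q ^ 2 + 1) * (1 - q ^ 2) * u) =
        (q ^ 2 * u - 2) * (u - 2 * q ^ 2) := by ring
    rw [e5] at e4
    linarith
  obtain ⟨m, hm⟩ : ∃ m, m = μ ^ 2 - 2 := ⟨_, rfl⟩
  have hm2 : 2 ≤ m := by
    have : 2 * 2 ≤ μ * μ := mul_le_mul hμ hμ (by norm_num) (by linarith)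
    rw [hm]
    linarith
  have h5 := u_low hq hq0 hu hm hm2 h3
  have h6 := km_low hμ hm hk0 hks hk
  have g1 : 0 ≤ 1 - k * μ := by
    by_contra hcon
    have := mul_nonpos_of_nonneg_of_nonpos (by linarith : 0 ≤ 2 * m + 8 / 10) (not_le.1 hcon).le
    linarith
  have g2 : (2 * m + 8 / 10) * (1 - k * μ) ≤ u * (1 - k * μ) := mul_le_mul_of_nonneg_right h5 g1
  have h8 : μ * 1 ≤ μ * (B - q * N - k * u) := by
    have e1 : μ * (B - q * N - k * u) = (μ * q) * u - μ * a - (μ * q) * N - k * μ * u := by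
      rw [hBa]
      ring
    rw [e1, ← hq]
    have g3 : (q ^ 2 + 1) * N ≤ 2 * N := mul_le_mul_of_nonneg_right (by linarith) (by linarith)
    linarith
  exact le_of_mul_le_mul_left h8 hμq

section

variable {b q k s s' σ R r A B u N : ℝ}

/-- `j ≥ 6` even, `B < q u` -/
theorem fin_even2 (hb : 1 < b) (hq : q ^ 2 + 1 = 2 * b * q) (hq0 : 0 < q) (hq1 : q < 1) (hk0 : 0 < k)
    (hk1 : k < 1) (hk : ((2 * b) ^ 3 - 2 * (2 * b)) * k ≤ k ^ 2 + 1)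
    (hs0 : 0 < s) (hsq : s' ≤ q * s) (hσ : s * σ = s' * R - 1)
    (hR : 1 < R) (hr : -k ≤ r) (hu : 1 ≤ u) (hN : N = 0 ∨ 1 ≤ N) (hP1 : 1 ≤ 2 * b * B - u - N)
    (hP : N ≤ 2 * b * B - u - N) (hB1 : 1 ≤ B)
    (hn : (u + N) ^ 2 + B ^ 2 + u ^ 2 - 2 * b * (u + N) * B - u * (u + N) = 1)
    (hB : B < q * u) : 1 < -(N * σ) + B * R + u * r := by
  have hprod := prod_even hq hn
  have hqu : q * u ≤ 1 * u := mul_le_mul_of_nonneg_right hq1.le (by linarith)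
  have h1 : 1 ≤ B - q * N - k * u := by
    rcases hN with hN | hN
    · subst hN
      have h2 := even2_zero (μ := 2 * b) (by linarith) hk0 hk1 hk hu (by linarith)
        (by linarith) hB1 (by linear_combination hn)
      linarith
    · exact even2_pos (μ := 2 * b) hq hq0 hq1 (by linarith) hk0 hk1 hk hu hN hP hB hprod
  have hN0 : 0 ≤ N := by rcases hN with h | h <;> linarith
  have h2 : 0 < k * u := mul_pos hk0 (by linarith)
  exact last_even hs0 hsq hσ hR hr hu hN0 (by linarith) h1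

/-- `j = 4`, `B < q u` -/
theorem fin_four {μ q X B u r : ℝ} {R σ : ℝ} (hq : q ^ 2 + 1 = μ * q) (hq0 : 0 < q) (hq1 : q < 1) (hμ : 2 < μ)
    (hu : 1 ≤ u) (hB1 : 1 ≤ B) (hB : B < q * u) (hX : μ * B < 2 * X)
    (hK : 2 * X - 2 * μ < μ * u * (X - 2 * u)) (hR : 1 < R) (hσ : (μ ^ 3 - 2 * μ) * σ = (μ ^ 2 - 1) * R - 1)
    (hr : -q ≤ r) : 1 < X * σ - B * (μ * σ - R) + u * r := by
  have hμu : μ * 1 ≤ μ * u := mul_le_mul_of_nonneg_left hu (by linarith)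
  have h1 : 0 < μ * u - 2 := by linarith
  have hq2' : q ^ 2 ≤ 1 := pow_le_one₀ hq0.le hq1.le
  have h2 : μ * (1 + q * u) < X := by
    have h3 : (μ * u - 2) * (μ * (1 + q * u)) < (μ * u - 2) * X := by
      have e1 : 2 * μ * (u ^ 2 - 1) - (μ * u - 2) * (μ * (1 + q * u)) =
          μ * u * (1 - q ^ 2) * u - (μ - 2 * q) * (μ * u) := by
        linear_combination (μ * u ^ 2) * hq
      have e2 : q * ((μ - 2 * q) * (μ * u)) = (1 - q ^ 2) * (μ * u) := by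
        linear_combination (-(μ * u)) * hq
      have e3 : (1 - q ^ 2) * (μ * u) * 1 ≤ (1 - q ^ 2) * (μ * u) * (q * u) := by
        have f1 : 0 ≤ (1 - q ^ 2) * (μ * u) := mul_nonneg (by linarith) (by linarith)
        exact mul_le_mul_of_nonneg_left (by linarith) f1
      have e4 : (μ - 2 * q) * (μ * u) ≤ μ * u * (1 - q ^ 2) * u := by
        have f1 : q * ((μ - 2 * q) * (μ * u)) ≤ q * (μ * u * (1 - q ^ 2) * u) := by
          rw [e2]
          linarith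
        exact le_of_mul_le_mul_left f1 hq0
      linarith
    exact lt_of_mul_lt_mul_left h3 h1.le
  have hμ2 : 2 * 2 < μ * μ := mul_lt_mul'' hμ hμ (by norm_num) (by norm_num)
  have hs4 := mu_cube hμ.le
  have hs : 0 < μ ^ 3 - 2 * μ := by linarith
  have hμB : 0 < μ * B := mul_pos (by linarith) (by linarith)
  have h4 : 0 < X * (μ ^ 2 - 1) - μ * B := by
    have h5 : 0 < X := by linarith
    have h6 : X * 2 < X * (μ ^ 2 - 1) := mul_lt_mul_of_pos_left (by linarith) h5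
    linarith
  have h5 : u * -q ≤ u * r := mul_le_mul_of_nonneg_left hr (by linarith)
  have h6 : (μ ^ 3 - 2 * μ) * (X * σ - B * (μ * σ - R)) =
      X * (μ ^ 2 - 2) + (R - 1) * (X * (μ ^ 2 - 1) - μ * B) := by
    linear_combination (X - B * μ) * hσ
  have h7 : X * (μ ^ 2 - 2) < (μ ^ 3 - 2 * μ) * (X * σ - B * (μ * σ - R)) := by
    rw [h6]
    have := mul_pos (by linarith : 0 < R - 1) h4
    linarith
  have h8 : (μ ^ 3 - 2 * μ) * (1 + q * u) < (μ ^ 3 - 2 * μ) * (X * σ - B * (μ * σ - R)) := by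
    have e1 : (μ ^ 3 - 2 * μ) * (1 + q * u) = (μ ^ 2 - 2) * (μ * (1 + q * u)) := by ring
    rw [e1]
    have := mul_lt_mul_of_pos_left h2 (by linarith : 0 < μ ^ 2 - 2)
    linarith
  have h9 := lt_of_mul_lt_mul_left h8 hs.le
  linarith

/-- `K fails` in the form used for `j = 4`; `F2 = 2 b g + x1 - x2` -/
theorem kf_four {b κ g x1 x2 : ℝ} (hb : 1 < b) (hobt : g ≤ b * x2)
    (hκv : g ≤ κ * (x2 - x1)) (hv : 0 < x2 - x1)
    (hF1 : 2 * (2 * b * κ - 1) < 2 * b * ((2 * x2 - 2 * b * g - x1) - κ * (2 * b * x2 - 2 * g)))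
    (hn : g ^ 2 + x1 ^ 2 + x2 ^ 2 - 2 * b * g * x2 - x1 * x2 = 1) :
    2 * (2 * b * g + x1 - x2) - 2 * (2 * b) <
      2 * b * x1 * ((2 * b * g + x1 - x2) - 2 * x1) := by
  have h1 := mul_lt_mul_of_pos_right hF1 hv
  have h2 : g * (2 * b * x2 - 2 * g + 2) ≤ κ * (x2 - x1) * (2 * b * x2 - 2 * g + 2) :=
    mul_le_mul_of_nonneg_right hκv (by linarith)
  have h3 := mul_le_mul_of_nonneg_left h2 (by linarith : 0 ≤ 2 * b)
  have hn' : 4 * b * (g ^ 2 + x1 ^ 2 + x2 ^ 2 - 2 * b * g * x2 - x1 * x2) = 4 * b := by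
    rw [hn, mul_one]
  linarith

end

end Pool.Agent.Helper14.DY
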