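import Pool.Agent.Helper32.DY.Root
import Pool.Agent.Helper9.DY.NG
import Pool.Agent.Helper9.DY.Str
import Pool.Agent.Helper14.DY.Re3

/-!
# The labels `b1 = 0`, `bO = 1/2`, `b2 > 1` with `h = d2` (MP_d13a5e_al)

`Cor`: two roots `x` (steeper), `x'` through `F` in the coordinates of some simple system `t, d1, d2`; the centre
enters only by `ρ x + ρ x' ≤ 1`, `0 ≤ ρ x'` and the strips of the pencils of `t` with `d2` and with the roots
`a t + d1 + b d2`, `b ≥ 1`.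
-/

set_option autoImplicit false

namespace DY

open Set

open Pool.Agent.Helper32.DY (Two fm fw fe bf z1_nonneg z1_one)
open Pool.Agent.Helper62.DY (RT rt_of_tri)

variable {E : Type*} [AddCommGroup E] [Module ℝ E]

/-- two roots through `F` in the coordinates of a simple system `t, d1, d2` (no condition on the foot) -/
structure Cor (Ψ : Set E) (B : E →ₗ[ℝ] E →ₗ[ℝ] ℝ) (ρ φ : E →ₗ[ℝ] ℝ) (t d1 d2 x x' : E)
    (g x1 x2 g' x1' x2' : ℝ) : Prop where
  tri : Tri Ψ B t d1 d2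
  rt : ρ t = 1
  ft : φ t = 1
  xm : x ∈ Ψ
  xm' : x' ∈ Ψ
  e : x = g • t + x1 • d1 + x2 • d2
  e' : x' = g' • t + x1' • d1 + x2' • d2
  cxx : Canon Ψ x x'
  sp : ∀ u ∈ Ψ, ∃ α β : ℝ, u = α • x + β • x' + φ u • t
  obt : g ≤ -B t d1 * x1 + -B t d2 * x2
  h1 : 0 ≤ φ d1
  h2 : φ d2 < 0
  fz : g + x1 * φ d1 + x2 * φ d2 = 0
  fz' : g' + x1' * φ d1 + x2' * φ d2 = 0
  st : x1 * x2' < x2 * x1'
  p1 : 1 ≤ x1
  p2 : 1 ≤ x2
  p1' : 1 ≤ x1'
  p2' : 0 ≤ x2'
  rx' : 0 ≤ g' + x1' * ρ d1 + x2' * ρ d2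
  sum : (g + x1 * ρ d1 + x2 * ρ d2) + (g' + x1' * ρ d1 + x2' * ρ d2) ≤ 1

variable {Ψ : Set E} {B : E →ₗ[ℝ] E →ₗ[ℝ] ℝ} {ρ φ : E →ₗ[ℝ] ℝ} {t d1 d2 x x' : E}
variable {g x1 x2 g' x1' x2' : ℝ}

/-- `Xs` gives `Cor` -/
theorem Xs.cor (X : Xs Ψ B ρ φ t d1 d2 x x' g x1 x2 g' x1' x2') :
    Cor Ψ B ρ φ t d1 d2 x x' g x1 x2 g' x1' x2' where
  tri := X.L.tri
  rt := X.L.rt
  ft := X.L.ft
  xm := X.L.xm
  xm' := X.L.xm'
  e := X.e
  e' := X.e'
  cxx := X.L.cxx
  sp := X.L.sp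
  obt := X.c.obt
  h1 := X.h1
  h2 := X.h2
  fz := by linarith [X.c.fz]
  fz' := by linarith [X.c'.fz]
  st := X.st
  p1 := X.p1
  p2 := X.p2
  p1' := X.p1'
  p2' := X.p2'
  rx' := by
    have := X.L.rx'
    rwa [X.rx'] at this
  sum := by
    have := X.L.sum
    rwa [X.rx, X.rx'] at this

namespace Cor

variable (X : Cor Ψ B ρ φ t d1 d2 x x' g x1 x2 g' x1' x2')
include X

theorem val_B (a0 a1 a2 y0 y1 y2 : ℝ) :
    B (a0 • t + a1 • d1 + a2 • d2) (y0 • t + y1 • d1 + y2 • d2) =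
      a0 * y0 + a1 * y1 + a2 * y2 + B t d1 * (a0 * y1 + a1 * y0) + B t d2 * (a0 * y2 + a2 * y0) +
        B d1 d2 * (a1 * y2 + a2 * y1) := by
  have s1 := X.tri.symm d1 t
  have s2 := X.tri.symm d2 t
  have s3 := X.tri.symm d2 d1
  have o1 := X.tri.one t X.tri.ha
  have o2 := X.tri.one d1 X.tri.hb
  have o3 := X.tri.one d2 X.tri.hc
  simp only [map_add, map_smul, LinearMap.add_apply, LinearMap.smul_apply, smul_eq_mul, s1, s2, s3, o1, o2,
    o3]
  ring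

theorem two : Two (-B t d1) (-B t d2) (-B d1 d2) (fun g x1 x2 => g • t + x1 • d1 + x2 • d2 ∈ Ψ)
    (-φ d2) (φ d1) g' x1' x2' g x1 x2 where
  h := rt_of_tri X.tri
  hx := by
    show g' • t + x1' • d1 + x2' • d2 ∈ Ψ
    rw [← X.e']
    exact X.xm'
  hy := by
    show g • t + x1 • d1 + x2 • d2 ∈ Ψ
    rw [← X.e]
    exact X.xm
  p1 := X.p1'
  v1 := X.p1
  p2 := X.p2'
  q2 := X.p2
  fx := by linarith [X.fz']
  fy := by linarith [X.fz]
  hf := X.h1
  hκ := by linarith [X.h2]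
  st := by linarith [X.st]
  hB := by
    have h := X.cxx.nonpos X.tri.sys X.xm X.xm'
    rw [X.e, X.e', X.val_B] at h
    unfold bf
    linarith
  obt := X.obt

/-- no root of the plane of `t` and `d2` is zero at `F` -/
theorem no_zero {α β : ℝ} (hu : α • t + β • d2 ∈ Ψ) : φ (α • t + β • d2) ≠ 0 := by
  intro hφ
  obtain ⟨γ, δ, h⟩ := X.sp _ hu
  rw [hφ, zero_smul, add_zero] at h
  have p1 := X.p1
  have p1' := X.p1'
  have h1 : (α - (γ * g + δ * g')) • t + (0 - (γ * x1 + δ * x1')) • d1 +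
      (β - (γ * x2 + δ * x2')) • d2 = 0 := by
    have e1 : (α - (γ * g + δ * g')) • t + (0 - (γ * x1 + δ * x1')) • d1 +
        (β - (γ * x2 + δ * x2')) • d2 = (α • t + β • d2) - (γ • (g • t + x1 • d1 + x2 • d2) +
          δ • (g' • t + x1' • d1 + x2' • d2)) := by module
    rw [e1, ← X.e, ← X.e', h, sub_self]
  obtain ⟨-, h2, -⟩ := X.tri.indep _ _ _ h1
  rcases X.cxx _ hu γ δ h with (⟨h5, h6⟩ | ⟨h5, h6⟩ | ⟨h5, h6⟩) | (⟨h5, h6⟩ | ⟨h5, h6⟩ | ⟨h5, h6⟩)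
  · rw [h5, h6] at h2
    linarith
  · rw [h5, h6] at h2
    linarith
  · nlinarith
  · have h7 : γ = 0 := by linarith
    have h8 : δ = -1 := by linarith
    rw [h7, h8] at h2
    linarith
  · have h7 : γ = -1 := by linarith
    have h8 : δ = 0 := by linarith
    rw [h7, h8] at h2
    linarith
  · nlinarith

theorem pc_mem (k : ℕ) : pc (-B t d2) d2 t k ∈ Ψ := by
  rw [pc_eq]
  exact (pu_mem X.tri.sys X.tri.ha X.tri.hc (by ring) k).1

/-- below the index all values of `φ` are strictly negative -/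
theorem fm_pos {k : ℕ} (hk : Good (-B t d2) (φ d2) k) : ∀ i ≤ k, 0 < fm (-B t d2) (-φ d2) i := by
  intro i hi
  cases i with
  | zero => exact one_pos
  | succ i =>
    have h1 := hk.hm i (by omega)
    have h2 : φ (pc (-B t d2) d2 t i) ≠ 0 := by
      have h3 : pc (-B t d2) d2 t i = sq (-B t d2) i • t + sq (-B t d2) (i + 1) • d2 := by
        unfold pc
        rw [add_comm]
      have h4 := X.pc_mem i
      rw [h3] at h4 ⊢
      exact X.no_zero h4
    rw [pc_val, X.ft, mul_one] at h2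
    show 0 < -φ d2 * sq (-B t d2) (i + 1) - sq (-B t d2) i
    rcases h1.lt_or_eq with h3 | h3
    · linarith
    · exact absurd h3 h2

end Cor

/-- the third walls of the fan for `b1 = 0`, `bO = 1/2` -/
def nv10 (b : ℝ) (t d1 d2 : E) : ℕ → E
  | 0 => d1 + d2
  | m + 1 => nv10 b t d1 d2 m + pc b d2 t (2 * m + 2)

theorem pc_succ (c : ℝ) (n t : E) (k : ℕ) : pc c n t (k + 2) = (2 * c) • pc c n t (k + 1) - pc c n t k := by
  rw [pc_eq, pc_eq, pc_eq, pu_succ]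

section

variable (hT : Tri Ψ B t d1 d2)
include hT

/-- products of neighbours in the pencil -/
theorem pc_B (k : ℕ) : B (pc (-B t d2) d2 t k) (pc (-B t d2) d2 t k) = 1 ∧
    B (pc (-B t d2) d2 t k) (pc (-B t d2) d2 t (k + 1)) = -B t d2 := by
  have h1 : ∀ k, pc (-B t d2) d2 t k ∈ Ψ := fun k => by
    rw [pc_eq]
    exact (pu_mem hT.sys hT.ha hT.hc (by ring) k).1
  refine ⟨hT.one _ (h1 k), ?_⟩
  induction k with
  | zero =>
    have e1 : pc (-B t d2) d2 t 0 = d2 := by simp [pc]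
    have e2 : pc (-B t d2) d2 t (0 + 1) = (2 * -B t d2) • d2 + t := by
      show (2 * -B t d2 * 1 - 0) • d2 + (1 : ℝ) • t = _
      module
    rw [e1, e2, map_add, map_smul, hT.one d2 hT.hc, hT.symm d2 t, smul_eq_mul]
    ring
  | succ k ih =>
    have e1 : k + 1 + 1 = k + 2 := rfl
    rw [e1, pc_succ, map_sub, map_smul, hT.one _ (h1 (k + 1)),
      hT.symm (pc (-B t d2) d2 t (k + 1)) (pc (-B t d2) d2 t k), ih, smul_eq_mul]
    ring

theorem pc_t (k : ℕ) : -B t (pc (-B t d2) d2 t k) = (sq (-B t d2) (k + 2) - sq (-B t d2) k) / 2 := by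
  unfold pc
  rw [map_add, map_smul, map_smul, hT.one t hT.ha, smul_eq_mul, smul_eq_mul, sq_succ]
  ring

theorem nv_facts (h10 : B t d1 = 0) (hO : B d1 d2 = -(1 / 2)) (h2 : 1 < -B t d2) (m : ℕ) :
    nv10 (-B t d2) t d1 d2 m ∈ Ψ ∧
    B (nv10 (-B t d2) t d1 d2 m) (pc (-B t d2) d2 t (2 * m + 1)) = 0 ∧
    B (nv10 (-B t d2) t d1 d2 m) (pc (-B t d2) d2 t (2 * m + 2)) = -(1 / 2) ∧
    -B t (nv10 (-B t d2) t d1 d2 m) = sq (-B t d2) (2 * m + 2) / 2 ∧
    ∃ a c : ℝ, nv10 (-B t d2) t d1 d2 m = a • t + d1 + c • d2 ∧ 0 ≤ a ∧ 1 ≤ c := by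
  have hmem : ∀ k, pc (-B t d2) d2 t k ∈ Ψ := fun k => by
    rw [pc_eq]
    exact (pu_mem hT.sys hT.ha hT.hc (by ring) k).1
  induction m with
  | zero =>
    have e0 : nv10 (-B t d2) t d1 d2 0 = d1 + d2 := rfl
    have p0 : pc (-B t d2) d2 t 0 = d2 := by simp [pc]
    have p1 : pc (-B t d2) d2 t (2 * 0 + 1) = (2 * -B t d2) • d2 + t := by
      show (2 * -B t d2 * 1 - 0) • d2 + (1 : ℝ) • t = _
      module
    have p2 : pc (-B t d2) d2 t (2 * 0 + 2) = (2 * -B t d2) • pc (-B t d2) d2 t (2 * 0 + 1) -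
        pc (-B t d2) d2 t 0 := pc_succ _ _ _ 0
    have b1 : B (d1 + d2) d2 = 1 / 2 := by
      rw [map_add, LinearMap.add_apply, hO, hT.one d2 hT.hc]
      norm_num
    have b2 : B (d1 + d2) t = B t d2 := by
      rw [map_add, LinearMap.add_apply, hT.symm d1 t, hT.symm d2 t, h10, zero_add]
    have b3 : B (d1 + d2) ((2 * -B t d2) • d2 + t) = 0 := by
      rw [map_add, map_smul, b1, b2, smul_eq_mul]
      ring
    refine ⟨?_, ?_, ?_, ?_, 0, 1, ?_, le_rfl, le_rfl⟩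
    · rw [e0]
      have h3 := hT.refl d2 hT.hc d1 hT.hb
      have h4 : rf B d2 d1 = d1 + d2 := by
        unfold rf
        rw [hT.symm d2 d1, hO]
        module
      rwa [h4] at h3
    · rw [e0, p1, b3]
    · rw [e0, p2, p0, p1, map_sub, map_smul, b3, b1, smul_eq_mul]
      norm_num
    · rw [e0, map_add, h10]
      show _ = (2 * -B t d2 * 1 - 0) / 2
      ring
    · rw [e0]
      module
  | succ m ih =>
    obtain ⟨i1, i2, i3, i4, a, c, i5, i6, i7⟩ := ih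
    have e0 : nv10 (-B t d2) t d1 d2 (m + 1) = nv10 (-B t d2) t d1 d2 m + pc (-B t d2) d2 t (2 * m + 2) := rfl
    have f1 : 2 * (m + 1) + 1 = 2 * m + 3 := by ring
    have f2 : 2 * (m + 1) + 2 = 2 * m + 4 := by ring
    have q3 : pc (-B t d2) d2 t (2 * m + 3) = (2 * -B t d2) • pc (-B t d2) d2 t (2 * m + 2) -
        pc (-B t d2) d2 t (2 * m + 1) := pc_succ _ _ _ _
    have q4 : pc (-B t d2) d2 t (2 * m + 4) = (2 * -B t d2) • pc (-B t d2) d2 t (2 * m + 3) -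
        pc (-B t d2) d2 t (2 * m + 2) := pc_succ _ _ _ _
    obtain ⟨o1, -⟩ := pc_B hT (2 * m + 2)
    obtain ⟨-, o2⟩ := pc_B hT (2 * m + 1)
    have o2' : B (pc (-B t d2) d2 t (2 * m + 2)) (pc (-B t d2) d2 t (2 * m + 1)) = -B t d2 := by
      rw [hT.symm]
      exact o2
    have j1 : B (nv10 (-B t d2) t d1 d2 (m + 1)) (pc (-B t d2) d2 t (2 * m + 2)) = 1 / 2 := by
      rw [e0, map_add, LinearMap.add_apply, i3, o1]
      norm_num
    have j2 : B (nv10 (-B t d2) t d1 d2 (m + 1)) (pc (-B t d2) d2 t (2 * m + 3)) = 0 := by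
      rw [q3, map_sub, map_smul, j1, e0, map_add, LinearMap.add_apply, i2, o2', smul_eq_mul]
      ring
    refine ⟨?_, ?_, ?_, ?_, a + sq (-B t d2) (2 * m + 2), c + sq (-B t d2) (2 * m + 3), ?_, ?_, ?_⟩
    · rw [e0]
      have h3 := hT.refl _ (hmem (2 * m + 2)) _ i1
      have h4 : rf B (pc (-B t d2) d2 t (2 * m + 2)) (nv10 (-B t d2) t d1 d2 m) =
          nv10 (-B t d2) t d1 d2 m + pc (-B t d2) d2 t (2 * m + 2) := by
        unfold rf
        rw [hT.symm (pc (-B t d2) d2 t (2 * m + 2)) (nv10 (-B t d2) t d1 d2 m), i3]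
        module
      rwa [h4] at h3
    · rw [f1, j2]
    · rw [f2, q4, map_sub, map_smul, j2, j1, smul_eq_mul]
      norm_num
    · rw [f2, e0, map_add]
      have h5 := pc_t hT (2 * m + 2)
      have f3 : 2 * m + 2 + 2 = 2 * m + 4 := by ring
      rw [f3] at h5
      linarith
    · rw [e0, i5]
      unfold pc
      have f3 : 2 * m + 2 + 1 = 2 * m + 3 := by ring
      rw [f3]
      module
    · have := (sq_incr h2.le (2 * m + 2)).1
      linarith
    · have := (sq_incr h2.le (2 * m + 3)).1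
      linarith

end

end DY
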