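import Pool.Agent.Helper32.DY.Ineq
import Pool.Agent.Helper7.DY.Loc
import Pool.Agent.Helper14.DY.Re3

/-!
# The labels `b1 = 0`, `bO = 1/2`, `b2 > 1` with `h = d2`: real numbers (MP_d13a5e_al)
-/

set_option autoImplicit false

namespace DY

open Pool.Agent.Helper32.DY (Two fm fw fe bf z1_nonneg z1_one fe_r fe_n fe_z)
open Pool.Agent.Helper14.DY

variable {g x1 x2 g' x1' x2' : ℝ}

theorem fwe14 {k : ℕ} (hk : k % 2 = 0) : fw 0 (1 / 2) k = 0 := by
  unfold fw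
  rw [if_pos hk]
  norm_num

theorem fwo14 {k : ℕ} (hk : k % 2 = 1) : fw 0 (1 / 2) k = 1 := by
  unfold fw
  rw [if_neg (by omega)]
  norm_num

/-- values of the fan, `u1`, `u2` the values at `d1`, `d2`, `w` the values of the third walls -/
theorem fan10 {b u1 u2 x1 x2 g : ℝ} {w : ℕ → ℝ} (hw0 : w 0 = u1 + u2)
    (hw : ∀ m, w (m + 1) = w m + (sq b (2 * m + 3) * u2 + sq b (2 * m + 2))) (m : ℕ) :
    g + x1 * u1 + x2 * u2 =
      fe 0 b (1 / 2) x1 x2 g (2 * m + 2) * (sq b (2 * m + 3) * u2 + sq b (2 * m + 2)) -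
        fe 0 b (1 / 2) x1 x2 g (2 * m + 3) * (sq b (2 * m + 2) * u2 + sq b (2 * m + 1)) + x1 * w m := by
  induction m with
  | zero =>
    have e2 : fe 0 b (1 / 2) x1 x2 g (2 * 0 + 2) = 2 * b * g + 1 * x1 - x2 := by
      show 2 * b * g + fw 0 (1 / 2) 1 * x1 - x2 = _
      rw [fwo14 rfl]
    have e3 : fe 0 b (1 / 2) x1 x2 g (2 * 0 + 3) = 2 * b * (2 * b * g + 1 * x1 - x2) + 0 * x1 - g := by
      show 2 * b * (2 * b * g + fw 0 (1 / 2) 1 * x1 - x2) + fw 0 (1 / 2) 2 * x1 - g = _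
      rw [fwo14 rfl, fwe14 rfl]
    have s1 : sq b (2 * 0 + 1) = 1 := rfl
    have s2 : sq b (2 * 0 + 2) = 2 * b := sq_two
    have s3 : sq b (2 * 0 + 3) = 2 * b * (2 * b) - 1 := by
      show 2 * b * (2 * b * 1 - 0) - 1 = _
      ring
    rw [e2, e3, s1, s2, s3, hw0]
    ring
  | succ m ih =>
    have i2 : 2 * (m + 1) + 2 = 2 * m + 4 := by ring
    have i3 : 2 * (m + 1) + 3 = 2 * m + 5 := by ring
    have i1 : 2 * (m + 1) + 1 = 2 * m + 3 := by ring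
    rw [i1, i2, i3]
    have e4 : fe 0 b (1 / 2) x1 x2 g (2 * m + 4) = 2 * b * fe 0 b (1 / 2) x1 x2 g (2 * m + 3) +
        1 * x1 - fe 0 b (1 / 2) x1 x2 g (2 * m + 2) := by
      show 2 * b * fe 0 b (1 / 2) x1 x2 g (2 * m + 3) + fw 0 (1 / 2) (2 * m + 3) * x1 -
        fe 0 b (1 / 2) x1 x2 g (2 * m + 2) = _
      rw [fwo14 (by omega)]
    have e5 : fe 0 b (1 / 2) x1 x2 g (2 * m + 5) = 2 * b * fe 0 b (1 / 2) x1 x2 g (2 * m + 4) +
        0 * x1 - fe 0 b (1 / 2) x1 x2 g (2 * m + 3) := by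
      show 2 * b * fe 0 b (1 / 2) x1 x2 g (2 * m + 4) + fw 0 (1 / 2) (2 * m + 4) * x1 -
        fe 0 b (1 / 2) x1 x2 g (2 * m + 3) = _
      rw [fwe14 (by omega)]
    have s3 : sq b (2 * m + 3) = 2 * b * sq b (2 * m + 2) - sq b (2 * m + 1) := rfl
    have s4 : sq b (2 * m + 4) = 2 * b * sq b (2 * m + 3) - sq b (2 * m + 2) := rfl
    have s5 : sq b (2 * m + 5) = 2 * b * sq b (2 * m + 4) - sq b (2 * m + 3) := rfl
    rw [ih, hw m, e5, e4, s5, s4, s3]
    ring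

/-- `j = 4`: `K fails` -/
theorem four14 {R : ℝ → ℝ → ℝ → Prop} {b κ f r1 r2 g x1 x2 g' x1' x2' : ℝ}
    (T : Two 0 b (1 / 2) R κ f g' x1' x2' g x1 x2) (hb2 : 1 < b) (hfa : 0 ≤ f + -κ) (hm1 : 0 < fm b κ 1)
    (hobt : g ≤ 0 * x1 + b * x2) (hρle : g + x1 * r1 + x2 * r2 ≤ 1) (hρ' : 0 ≤ g' + x1' * r1 + x2' * r2)
    (hRk : 1 < sq b (3 + 1) * r2 + sq b 3) :
    2 * fe 0 b (1 / 2) x1 x2 g 2 - 2 * (2 * b) <
      2 * b * x1 * (fe 0 b (1 / 2) x1 x2 g 2 - 2 * x1) := by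
  have hx1 := T.v1
  have hx1' := T.p1
  have hF2 : fe 0 b (1 / 2) x1 x2 g 2 = 2 * b * g + x1 - x2 := by
    show 2 * b * g + fw 0 (1 / 2) 1 * x1 - x2 = _
    rw [fwo14 rfl]
    ring
  have hg : 1 ≤ g := T.e_pos hm1
  -- `v = x2 - x1`
  have hv0 : 0 ≤ x2 - x1 := by
    rcases fe_r T.h T.hy 0 with ⟨-, -, h3⟩ | ⟨h1, -, -⟩
    · have f0 : fw 0 (1 / 2) 0 = 0 := fwe14 rfl
      have f1 : fw 0 (1 / 2) (0 + 1) = 1 := fwo14 rfl
      rw [f0, f1] at h3
      have e1 : 1 * fe 0 b (1 / 2) x1 x2 g 0 + 0 * fe 0 b (1 / 2) x1 x2 g (0 + 1) - x1 = x2 - x1 := by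
        show 1 * x2 + 0 * g - x1 = _
        ring
      rw [e1] at h3
      exact z1_nonneg h3
    · exfalso
      have h4 := z1_nonneg h1
      have h5 : fe 0 b (1 / 2) x1 x2 g 0 = x2 := rfl
      rw [h5] at h4
      linarith [T.q2]
  have hfx := T.fx
  have hfy := T.fy
  have hκv : g ≤ κ * (x2 - x1) := by
    have h1 : 0 ≤ x1 * (f + -κ) := mul_nonneg (by linarith) hfa
    linarith
  have hv : 0 < x2 - x1 := by
    rcases hv0.lt_or_eq with h1 | h1
    · exact h1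
    · rw [← h1] at hκv
      linarith
  have hΔ : 0 < x2 * x1' - x2' * x1 := by linarith [T.st]
  -- `2 b r2 > -1`
  have s3 : sq b 3 = (2 * b) ^ 2 - 1 := by
    show 2 * b * (2 * b * 1 - 0) - 1 = _
    ring
  have s4 : sq b (3 + 1) = (2 * b) ^ 3 - 2 * (2 * b) := by
    show 2 * b * (2 * b * (2 * b * 1 - 0) - 1) - (2 * b * 1 - 0) = _
    ring
  have hr2 : -1 < 2 * b * r2 := by
    rw [s4, s3] at hRk
    have h2 : 0 < ((2 * b) ^ 2 - 2) * (2 * b * r2 + 1) := by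
      have : ((2 * b) ^ 2 - 2) * (2 * b * r2 + 1) =
        ((2 * b) ^ 3 - 2 * (2 * b)) * r2 + ((2 * b) ^ 2 - 1) - 1 := by ring
      linarith
    have h3 : 0 < (2 * b) ^ 2 - 2 := by
      have : 1 * 1 < b * b := mul_lt_mul'' hb2 hb2 zero_le_one zero_le_one
      linarith
    have := (mul_pos_iff_of_pos_left h3).1 h2
    linarith
  have hKf : (x2 * x1' - x2' * x1) * (2 * b * κ - 1) < 2 * b * x1' := by
    have h1 : (x2 * x1' - x2' * x1) * (r2 + κ) =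
        x1' * (g + x1 * r1 + x2 * r2) - x1 * (g' + x1' * r1 + x2' * r2) := by
      linear_combination x1 * hfx - x1' * hfy
    have h2 : x1' * (g + x1 * r1 + x2 * r2) ≤ x1' * 1 :=
      mul_le_mul_of_nonneg_left hρle (by linarith)
    have h3 : 0 ≤ x1 * (g' + x1' * r1 + x2' * r2) := mul_nonneg (by linarith) hρ'
    have h4 : (x2 * x1' - x2' * x1) * (r2 + κ) ≤ x1' := by linarith
    have h5 := mul_le_mul_of_nonneg_left h4 (by linarith : 0 ≤ 2 * b)
    have h6 := mul_pos hΔ (by linarith : 0 < 2 * b * r2 + 1)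
    linarith
  have hβ : 2 * x1' ≤
      (x2 * x1' - x2' * x1) * ((2 * x2 - 2 * b * g - x1) - κ * (2 * b * x2 - 2 * g)) := by
    have hn' := T.h.n _ _ _ T.hy
    have hB'' := T.hB
    have h2 : κ * (x2 * x1' - x2' * x1) = g * x1' - g' * x1 := by
      linear_combination x1 * hfx - x1' * hfy
    have h1 : (x2 * x1' - x2' * x1) * ((2 * x2 - 2 * b * g - x1) - κ * (2 * b * x2 - 2 * g)) =
        2 * x1' - 2 * x1 * bf 0 b (1 / 2) g' x1' x2' g x1 x2 := by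
      unfold bf
      linear_combination (-(2 * b * x2 - 2 * g)) * h2 + 2 * x1' * hn'
    rw [h1]
    have := mul_nonpos_of_nonneg_of_nonpos (by linarith : 0 ≤ x1) hB''
    linarith
  have hF1 : 2 * (2 * b * κ - 1) <
      2 * b * ((2 * x2 - 2 * b * g - x1) - κ * (2 * b * x2 - 2 * g)) := by
    have h1 : (x2 * x1' - x2' * x1) * (2 * (2 * b * κ - 1)) < (x2 * x1' - x2' * x1) *
        (2 * b * ((2 * x2 - 2 * b * g - x1) - κ * (2 * b * x2 - 2 * g))) := by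
      have h2 := mul_le_mul_of_nonneg_left hβ (by linarith : 0 ≤ 2 * b)
      linarith
    exact lt_of_mul_lt_mul_left h1 hΔ.le
  rw [hF2]
  exact kf_four hb2 (by linarith) hκv hv hF1 (by linear_combination T.h.n _ _ _ T.hy)

/-- the fan is decreasing at the index -/
theorem dec14 {R : ℝ → ℝ → ℝ → Prop} {b κ f : ℝ} (T : Two 0 b (1 / 2) R κ f g' x1' x2' g x1 x2)
    (hb1 : 1 ≤ b) {k : ℕ} (hk : 1 ≤ k) (hm : 0 < fm b κ k) (hobt : g ≤ 0 * x1 + b * x2) :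
    fe 0 b (1 / 2) x1 x2 g (k + 1) < fe 0 b (1 / 2) x1 x2 g (k - 1) := by
  have h1 := (T.diff (k - 1)).1
  have h2 : k - 1 + 1 = k := by omega
  have h3 : k - 1 + 2 = k + 1 := by omega
  simp only [h2, h3] at h1
  have h4 := T.b_pos
  have h6 : 0 < sq b k := by
    have := sq_ge_one hb1 (k - 1)
    rw [h2] at this
    linarith
  have h7 : 0 ≤ 2 * 0 * x1 + 2 * b * x2 - 2 * g := by linarith
  have h8 := mul_nonneg hm.le h7
  have h9 := mul_pos h6 h4
  linarith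

/-- `j` odd: the coefficient `M` -/
theorem M14 {R : ℝ → ℝ → ℝ → Prop} {b κ f : ℝ} (T : Two 0 b (1 / 2) R κ f g' x1' x2' g x1 x2)
    {k : ℕ} (hkp : k % 2 = 0) (hm : 0 < fm b κ k) (hm' : fm b κ (k + 1) < 0) :
    1 ≤ fe 0 b (1 / 2) x1 x2 g k - x1 := by
  have hx1 := T.v1
  have hx1' := T.p1
  have hΔ : 0 < x2 * x1' - x2' * x1 := by linarith [T.st]
  have hFk : 1 ≤ fe 0 b (1 / 2) x1 x2 g k := T.e_pos hm
  have hr : Z1 (fe 0 b (1 / 2) x1 x2 g k - x1) := by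
    rcases fe_r T.h T.hy k with ⟨-, -, h3⟩ | ⟨h1, -, -⟩
    · rw [fwe14 hkp, fwo14 (by omega : (k + 1) % 2 = 1)] at h3
      have e1 : 1 * fe 0 b (1 / 2) x1 x2 g k + 0 * fe 0 b (1 / 2) x1 x2 g (k + 1) - x1 =
        fe 0 b (1 / 2) x1 x2 g k - x1 := by ring
      rwa [e1] at h3
    · exfalso
      have := z1_nonneg h1
      linarith
  rcases hr with hr | hr
  swap
  · exact hr
  exfalso
  obtain ⟨c1, c2⟩ := T.cross k
  have h3 := mul_pos hm hΔ
  have h4 : fm b κ (k + 1) * (x2 * x1' - x2' * x1) < 0 := mul_neg_of_neg_of_pos hm' hΔ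
  rcases fe_r T.h T.hx k with ⟨-, -, h5⟩ | ⟨h5, h6, -⟩
  · rw [fwe14 hkp, fwo14 (by omega : (k + 1) % 2 = 1)] at h5
    have h7 := z1_nonneg h5
    have h8 : fe 0 b (1 / 2) x1 x2 g k = x1 := by linarith
    rw [h8] at c1
    have h9 : x1 * x1' ≤ x1 * fe 0 b (1 / 2) x1' x2' g' k :=
      mul_le_mul_of_nonneg_left (by linarith) (by linarith)
    linarith
  · have h7 := z1_nonneg h6
    have h8 := z1_nonneg (fe_z T.h T.hy (by linarith) (k + 1))
    have h9 := mul_nonneg h8 (by linarith : 0 ≤ x1')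
    have h10 := mul_nonneg h7 (by linarith : 0 ≤ x1)
    linarith

/-- `j` odd, at least `5` -/
theorem odd14 {R : ℝ → ℝ → ℝ → Prop} {b q κ f r2 c r : ℝ} (T : Two 0 b (1 / 2) R κ f g' x1' x2' g x1 x2)
    (hb2 : 1 < b) (hq : q ^ 2 + 1 = 2 * b * q) (hq0 : 0 < q) (hq1 : q < 1)
    {k : ℕ} (hkp : k % 2 = 0) (hk4 : 4 ≤ k) (hm : 0 < fm b κ k) (hm' : fm b κ (k + 1) < 0)
    (hobt : g ≤ 0 * x1 + b * x2) (hR : 1 < sq b (k + 1) * r2 + sq b k) (hstr : Str (sq b k / 2) c r) :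
    1 < -(fe 0 b (1 / 2) x1 x2 g (k + 1) * (sq b k * r2 + sq b (k - 1))) +
      fe 0 b (1 / 2) x1 x2 g k * (sq b (k + 1) * r2 + sq b k) + x1 * r := by
  have hb1 := hb2.le
  have hM := M14 T hkp hm hm'
  have hdec := dec14 T hb1 (by omega : 1 ≤ k) hm hobt
  have hx1 := T.v1
  have hsk : 4 ≤ sq b k := by
    have h4 : 4 ≤ sq b 4 := by
      have g0 := (sq_incr hb1 0).2
      have g1 := (sq_incr hb1 1).2
      have g2 := (sq_incr hb1 2).2
      have g3 := (sq_incr hb1 3).2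
      have z0 : sq b 0 = 0 := rfl
      linarith
    have h5 : sq b 4 ≤ sq b k := sq_mono hb1 hk4
    linarith
  obtain ⟨kk, hk0, hk1', hkk⟩ := exists_k (c := sq b k / 2) (by linarith)
  have hr : -kk ≤ r := ult_k (by linarith) hk0 hk1'.le hkk.le hstr.foot (hstr.ult (by linarith))
  have e2 : k - 1 + 2 = k + 1 := by omega
  have e3 : k - 1 + 1 = k := by omega
  have hτ := k_tau hq hq0 hq1 (i := k - 1) (by omega) hk0 hk1' (by
    rw [e3]
    linarith)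
  rw [e2, e3] at hτ
  have hQ : 0 < q * sq b (k + 1) - sq b k := by
    rw [q_step hq]
    exact pow_pos hq0 _
  have hcas := sq_cassini b (k - 1)
  rw [e2, e3] at hcas
  have hrec : fe 0 b (1 / 2) x1 x2 g (k + 1) =
      2 * b * fe 0 b (1 / 2) x1 x2 g k - fe 0 b (1 / 2) x1 x2 g (k - 1) := by
    have h1 : fe 0 b (1 / 2) x1 x2 g (k - 1 + 2) = 2 * b * fe 0 b (1 / 2) x1 x2 g (k - 1 + 1) +
      fw 0 (1 / 2) (k - 1 + 1) * x1 - fe 0 b (1 / 2) x1 x2 g (k - 1) := rfl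
    rw [e2, e3, fwe14 hkp] at h1
    linarith
  have hn := fe_n T.h T.hy k
  rw [fwe14 hkp, fwo14 (by omega : (k + 1) % 2 = 1)] at hn
  have hA := z1_nonneg (fe_z T.h T.hy (by linarith) (k + 1))
  exact fin_odd hq hq0 hq1 hk0 hk1' hτ (by linarith [sq_ge_one hb1 k]) hQ
    (by linear_combination -hcas) hR hr hA hx1 hM (by linarith) (by linear_combination hn)

/-- `j` even, at least `4` -/
theorem even14 {R : ℝ → ℝ → ℝ → Prop} {b q κ f r1 r2 c r : ℝ}
    (T : Two 0 b (1 / 2) R κ f g' x1' x2' g x1 x2)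
    (hb2 : 1 < b) (hq : q ^ 2 + 1 = 2 * b * q) (hq0 : 0 < q) (hq1 : q < 1)
    {k m : ℕ} (hk : k = 2 * m + 3) (hfm : ∀ i ≤ k, 0 < fm b κ i) (hfa : 0 ≤ f + -κ)
    (hobt : g ≤ 0 * x1 + b * x2) (hR : 1 < sq b (k + 1) * r2 + sq b k) (hstr : Str (sq b (2 * m + 2) / 2) c r)
    (hρle : g + x1 * r1 + x2 * r2 ≤ 1) (hρ' : 0 ≤ g' + x1' * r1 + x2' * r2) :
    1 < fe 0 b (1 / 2) x1 x2 g (k - 1) * (sq b k * r2 + sq b (k - 1)) -
      fe 0 b (1 / 2) x1 x2 g k * (sq b (k - 1) * r2 + sq b (k - 2)) + x1 * r := by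
  have hb1 := hb2.le
  have hm0 := hfm k le_rfl
  have hdec := dec14 T hb1 (by omega : 1 ≤ k) hm0 hobt
  have hx1 := T.v1
  have hkp : k % 2 = 1 := by omega
  have hFk : 1 ≤ fe 0 b (1 / 2) x1 x2 g k := T.e_pos hm0
  have e2 : k - 1 + 2 = k + 1 := by omega
  have e3 : k - 1 + 1 = k := by omega
  have e4 : k - 2 + 2 = k := by omega
  have e5 : k - 2 + 1 = k - 1 := by omega
  obtain ⟨F, hF⟩ : ∃ F : ℕ → ℝ, F = fe 0 b (1 / 2) x1 x2 g := ⟨_, rfl⟩
  rw [← hF] at hdec hFk ⊢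
  obtain ⟨N, hN⟩ : ∃ N, N = F (k + 1) - x1 := ⟨_, rfl⟩
  have hA : F (k + 1) = x1 + N := by linarith
  have hrec : F (k - 1) = 2 * b * F k - N := by
    have h1 : F (k - 1 + 2) = 2 * b * F (k - 1 + 1) + fw 0 (1 / 2) (k - 1 + 1) * x1 - F (k - 1) := by
      rw [hF]
      rfl
    rw [e2, e3, fwo14 hkp, hA] at h1
    linarith
  have hNz : Z1 N := by
    rcases fe_r T.h T.hy k with ⟨-, -, h3⟩ | ⟨h1, -, -⟩
    · rw [fwo14 hkp, fwe14 (by omega : (k + 1) % 2 = 0), ← hF] at h3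
      have e1 : 0 * F k + 1 * F (k + 1) - x1 = N := by rw [hA]; ring
      rwa [e1] at h3
    · exfalso
      have := z1_nonneg h1
      rw [← hF] at this
      linarith
  have hN0 := z1_nonneg hNz
  have hP1 : 1 ≤ 2 * b * F k - x1 - N := by
    have h1 := T.r_pos (k := k - 1) (hfm _ (by omega)) (by rw [e3]; exact hm0)
    rw [e3, fwo14 hkp, fwe14 (by omega : (k - 1) % 2 = 0), ← hF, hrec] at h1
    linarith
  have hP : N ≤ 2 * b * F k - x1 - N := by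
    rw [hrec, hA] at hdec
    linarith
  have hn : (x1 + N) ^ 2 + F k ^ 2 + x1 ^ 2 - 2 * b * (x1 + N) * F k - x1 * (x1 + N) = 1 := by
    have h1 := fe_n T.h T.hy k
    rw [fwo14 hkp, fwe14 (by omega : (k + 1) % 2 = 0), ← hF, hA] at h1
    linear_combination h1
  have hcas := sq_cassini b (k - 1)
  rw [e2, e3] at hcas
  have hsp : 0 < sq b (k + 1) := by linarith [sq_ge_one hb1 k]
  have hsq : sq b k ≤ q * sq b (k + 1) := by
    have h1 := q_step hq k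
    have h2 := pow_pos hq0 (k + 1)
    linarith
  have hsk1 : sq b (k + 1) = 2 * b * sq b k - sq b (k - 1) := by
    have := sq_succ b (k - 1)
    rwa [e2, e3] at this
  have hsk : sq b k = 2 * b * sq b (k - 1) - sq b (k - 2) := by
    have := sq_succ b (k - 2)
    rwa [e4, e5] at this
  have hval : F (k - 1) * (sq b k * r2 + sq b (k - 1)) - F k * (sq b (k - 1) * r2 + sq b (k - 2)) + x1 * r =
      -(N * (sq b k * r2 + sq b (k - 1))) + F k * (sq b (k + 1) * r2 + sq b k) + x1 * r := by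
    rw [hrec]
    have h1 : sq b (k - 1) * r2 + sq b (k - 2) =
        2 * b * (sq b k * r2 + sq b (k - 1)) - (sq b (k + 1) * r2 + sq b k) := by
      rw [hsk1, hsk]
      ring
    rw [h1]
    ring
  have hσ : sq b (k + 1) * (sq b k * r2 + sq b (k - 1)) =
      sq b k * (sq b (k + 1) * r2 + sq b k) - 1 := by
    linear_combination -hcas
  have hcm : b ≤ sq b (2 * m + 2) / 2 := by
    have h1 : sq b 2 ≤ sq b (2 * m + 2) := sq_mono hb1 (by omega)
    have h2 : sq b 2 = 2 * b := sq_two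
    linarith
  obtain ⟨kk, hk0, hk1', hkk⟩ := exists_k (c := sq b (2 * m + 2) / 2) (by linarith)
  have hr : -kk ≤ r := ult_k (by linarith) hk0 hk1'.le hkk.le hstr.foot (hstr.ult (by linarith))
  have hkq : kk ≤ q := k_mono hq0 hq hk0 hk1' hkk hcm
  rw [hval]
  rcases lt_or_ge x1 (q * F k) with hB | hB
  · exact fin_even1 (b := b) hq hq0 hq1 hkq hsp hsq hσ hR hr hx1 hN0 hP hn hB
  have hprod := prod_even hq hn
  have hB' : F k < q * x1 := by
    have h1 : 0 < (F k - q * x1) * (q * F k - x1) := by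
      rw [hprod]
      have : 0 ≤ N * (2 * b * F k - x1 - N) := mul_nonneg hN0 (by linarith)
      exact mul_pos hq0 (by linarith)
    by_contra hcon
    have h2 : 0 ≤ F k - q * x1 := by linarith [not_lt.1 hcon]
    have h3 : q * F k - x1 ≤ 0 := by linarith
    have := mul_nonpos_of_nonneg_of_nonpos h2 h3
    linarith
  rcases Nat.eq_zero_or_pos m with hm1 | hm1
  · -- `j = 4`
    subst hm1
    have hk' : k = 3 := by omega
    subst hk'
    have hqk : kk = q := by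
      have h2 : sq b (2 * 0 + 2) = 2 * b := sq_two
      rw [h2] at hkk
      exact le_antisymm hkq (k_mono hk0 hkk hq0 hq1 hq (by linarith))
    rw [hqk] at hr
    have hKK : 2 * F 2 - 2 * (2 * b) < 2 * b * x1 * (F 2 - 2 * x1) := by
      rw [hF]
      exact four14 T hb2 hfa (hfm 1 (by omega)) hobt hρle hρ' hR
    have hrec2 : F (3 - 1) = F 2 := rfl
    rw [hrec2] at hrec hdec
    have s3 : sq b 3 = (2 * b) ^ 2 - 1 := by
      show 2 * b * (2 * b * 1 - 0) - 1 = _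
      ring
    have s4 : sq b (3 + 1) = (2 * b) ^ 3 - 2 * (2 * b) := by
      show 2 * b * (2 * b * (2 * b * 1 - 0) - 1) - (2 * b * 1 - 0) = _
      ring
    have hfour := fin_four (μ := 2 * b) (q := q) (X := F 2) (B := F 3) (u := x1)
      (r := r) (R := sq b (3 + 1) * r2 + sq b 3)
      (σ := sq b 3 * r2 + sq b (3 - 1)) hq hq0 hq1 (by linarith) hx1 hFk hB' (by linarith) hKK hR
      (by
        rw [← s3, ← s4]
        exact hσ) hr
    rw [hrec] at hfour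
    have h2 : (2 * b * F 3 - N) * (sq b 3 * r2 + sq b (3 - 1)) -
        F 3 * (2 * b * (sq b 3 * r2 + sq b (3 - 1)) - (sq b (3 + 1) * r2 + sq b 3)) =
        -(N * (sq b 3 * r2 + sq b (3 - 1))) + F 3 * (sq b (3 + 1) * r2 + sq b 3) := by ring
    rw [h2] at hfour
    exact hfour
  · -- `j ≥ 6`
    have hk4 : ((2 * b) ^ 3 - 2 * (2 * b)) * kk ≤ kk ^ 2 + 1 := by
      rw [hkk]
      have h1 : sq b 4 ≤ sq b (2 * m + 2) := sq_mono hb1 (by omega)
      have h2 : sq b 4 = (2 * b) ^ 3 - 2 * (2 * b) := by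
        show 2 * b * (2 * b * (2 * b * 1 - 0) - 1) - (2 * b * 1 - 0) = _
        ring
      rw [h2] at h1
      have := mul_le_mul_of_nonneg_right h1 hk0.le
      linarith
    exact fin_even2 (b := b) hb2 hq hq0 hq1 hk0 hk1' hk4 hsp hsq hσ hR hr hx1 hNz hP1 hP
      hFk hn hB'

end DY
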