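import Pool.Agent.Helper14.DY.Core
import Pool.Agent.Helper14.DY.Core1

/-!
# The labels `b1 = 0`, `bO = 1/2`, `b2 > 1` with `h = d2`: the theorem (MP_d13a5e_al)
-/

set_option autoImplicit false

namespace DY

open Set

open Pool.Agent.Helper32.DY (Two fm fw fe bf z1_nonneg z1_one fe_r fe_n fe_z)
open Pool.Agent.Helper62.DY (RT rt_of_tri)
open Pool.Agent.Helper14.DY

variable {E : Type*} [AddCommGroup E] [Module ℝ E]
variable {Ψ : Set E} {B : E →ₗ[ℝ] E →ₗ[ℝ] ℝ} {ρ φ : E →ₗ[ℝ] ℝ} {t d1 d2 x x' : E}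
variable {g x1 x2 g' x1' x2' : ℝ}

/-- **the labels `b1 = 0`, `bO = 1/2`, `b2 > 1`**, `φ(d1 + d2) ≥ 0 > φ(d2)` -/
theorem Cor.core10 (X : Cor Ψ B ρ φ t d1 d2 x x' g x1 x2 g' x1' x2') (h10 : B t d1 = 0)
    (hO : B d1 d2 = -(1 / 2)) (hb2 : 1 < -B t d2) (hfa : 0 ≤ φ d1 + φ d2)
    (s2 : Str (-B t d2) (φ d2) (ρ d2))
    (hS : ∀ (n : E) (a c : ℝ), n ∈ Ψ → n = a • t + d1 + c • d2 → 0 ≤ a → 1 ≤ c →
      Str (-B t n) (φ n) (ρ n)) : False := by
  have T := X.two
  have e10 : -B t d1 = 0 := by rw [h10, neg_zero]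
  have eO : -B d1 d2 = 1 / 2 := by rw [hO, neg_neg]
  have hobt := X.obt
  rw [e10, eO] at T
  rw [e10] at hobt
  have hρle : g + x1 * ρ d1 + x2 * ρ d2 ≤ 1 := by linarith [X.sum, X.rx']
  have hstr : ∀ m, Str (sq (-B t d2) (2 * m + 2) / 2) (φ (nv10 (-B t d2) t d1 d2 m))
      (ρ (nv10 (-B t d2) t d1 d2 m)) := by
    intro m
    obtain ⟨n1, -, -, n4, a, c, n5, n6, n7⟩ := nv_facts X.tri h10 hO hb2 m
    have h1 := hS _ a c n1 n5 n6 n7
    rw [n4] at h1
    exact h1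
  have hfm : ∀ k, Good (-B t d2) (φ d2) k → ∀ i ≤ k, 0 < fm (-B t d2) (-φ d2) i := fun k hk => X.fm_pos hk
  have hbey : ¬ Beyond (-B t d2) (φ d2) := by
    intro hbey
    refine T.no_inf hb2.le fun i => ?_
    cases i with
    | zero => exact one_pos
    | succ i =>
      have h1 := hbey i (fun l _ => by linarith [sq_ge_one hb2.le l])
      have h2 : φ (pc (-B t d2) d2 t i) ≠ 0 := by
        have h3 : pc (-B t d2) d2 t i = sq (-B t d2) i • t + sq (-B t d2) (i + 1) • d2 := by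
          unfold pc
          rw [add_comm]
        have h4 := X.pc_mem i
        rw [h3] at h4 ⊢
        exact X.no_zero h4
      rw [pc_val, X.ft, mul_one] at h2
      show 0 < -φ d2 * sq (-B t d2) (i + 1) - sq (-B t d2) i
      rcases h1.lt_or_eq with h3 | h3
      · linarith
      · exact absurd h3 h2
  -- values of the third walls
  have hfan : ∀ (ψ : E →ₗ[ℝ] ℝ), ψ t = 1 → ∀ m, g + x1 * ψ d1 + x2 * ψ d2 =
      fe 0 (-B t d2) (1 / 2) x1 x2 g (2 * m + 2) * (sq (-B t d2) (2 * m + 3) * ψ d2 + sq (-B t d2) (2 * m + 2)) -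
        fe 0 (-B t d2) (1 / 2) x1 x2 g (2 * m + 3) *
          (sq (-B t d2) (2 * m + 2) * ψ d2 + sq (-B t d2) (2 * m + 1)) +
        x1 * ψ (nv10 (-B t d2) t d1 d2 m) := by
    intro ψ hψ m
    refine fan10 (w := fun m => ψ (nv10 (-B t d2) t d1 d2 m)) ?_ ?_ m
    · show ψ (d1 + d2) = _
      rw [map_add]
    · intro m
      show ψ (nv10 (-B t d2) t d1 d2 m + pc (-B t d2) d2 t (2 * m + 2)) = _
      rw [map_add, pc_val, hψ, mul_one]
  have hφ := hfan φ X.ft 0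
  have hρ := hfan ρ X.rt
  have hfz := X.fz
  have hρ' := X.rx'
  have hft : φ (nv10 (-B t d2) t d1 d2 0) = φ d1 + φ d2 := by
    show φ (d1 + d2) = _
    rw [map_add]
  have hf2 := X.h2
  rcases good_or_beyond (-B t d2) (φ d2) with ⟨k, hk⟩ | h
  swap
  · exact hbey h
  have hRk := hk.nk s2 hf2
  have hk1 : 1 ≤ k := hk.pos hf2
  have hfmk := hfm k hk
  have hpos := hk.hpos
  clear hS hfan hfm hbey hk s2 X h10 hO
  obtain ⟨b, hb⟩ : ∃ b, b = -B t d2 := ⟨_, rfl⟩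
  obtain ⟨κ, hκ⟩ : ∃ κ, κ = -φ d2 := ⟨_, rfl⟩
  have hfκ : φ d2 = -κ := by linarith
  rw [← hb] at T hstr hb2 hobt hφ hRk hfmk hpos hft
  simp only [← hb] at hρ
  rw [← hκ] at T hfmk
  rw [hft] at hφ
  rw [hfz, hfκ] at hφ
  rw [hfκ] at hfa hpos hfz
  have hb1 : 1 ≤ b := hb2.le
  have hx1 := T.v1
  obtain ⟨q, hq0, hq1, hq⟩ := exists_k hb2
  have hm' : fm b κ (k + 1) < 0 := by
    have : fm b κ (k + 1) = κ * sq b (k + 1) - sq b k := rfl
    rw [this]
    linarith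
  rcases Nat.mod_two_eq_zero_or_one k with hkp | hkp
  · -- `k` even: `j = k + 1` odd
    obtain ⟨m, hm⟩ : ∃ m, k = 2 * m + 2 := ⟨k / 2 - 1, by omega⟩
    rcases Nat.eq_zero_or_pos m with hm0 | hm0
    · -- `j = 3`
      subst hm0
      have hk2 : k = 2 := by omega
      subst hk2
      have h2 := hfmk 2 le_rfl
      have hF2 : 1 ≤ fe 0 b (1 / 2) x1 x2 g 2 := T.e_pos h2
      have h4 := z1_nonneg (fe_z T.h T.hy (by linarith) 3)
      have h5 := mul_pos (by linarith : 0 < fe 0 b (1 / 2) x1 x2 g 2) hpos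
      have h3 : fm b κ 2 = κ * sq b 2 - sq b 1 := rfl
      rw [h3] at h2
      have h6 := mul_nonneg h4 h2.le
      have h7 : 0 ≤ x1 * (φ d1 + -κ) := mul_nonneg (by linarith) hfa
      have e2 : 2 * 0 + 2 = 2 := rfl
      have e3 : 2 * 0 + 3 = 3 := rfl
      have e1 : 2 * 0 + 1 = 1 := rfl
      rw [e1, e2, e3] at hφ
      have e4 : 2 + 1 = 3 := rfl
      rw [e4] at h5
      linarith
    · -- `j ≥ 5`
      have hst := hstr m
      rw [← hm] at hst
      have hfin := odd14 T hb2 hq hq0 hq1 hkp (by omega) (hfmk k le_rfl) hm' hobt hRk hst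
      have h1 := hρ m
      have i1 : 2 * m + 3 = k + 1 := by omega
      have i2 : 2 * m + 1 = k - 1 := by omega
      rw [i1, i2, ← hm] at h1
      linarith
  · -- `k` odd: `j = k + 1` even
    rcases Nat.lt_or_ge k 3 with hk3 | hk3
    · -- `j = 2`
      have hk' : k = 1 := by omega
      subst hk'
      have h2 := z1_nonneg (fe_z T.h T.hy (by linarith) 2)
      have h1 : fe 0 b (1 / 2) x1 x2 g 2 = 2 * b * g + x1 - x2 := by
        show 2 * b * g + fw 0 (1 / 2) 1 * x1 - x2 = _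
        rw [fwo14 rfl]
        ring
      have hg : 1 ≤ g := T.e_pos (hfmk 1 le_rfl)
      rw [h1] at h2
      have s2' : sq b (1 + 1) = 2 * b := sq_two
      have s1' : sq b 1 = 1 := rfl
      rw [s2', s1'] at hpos
      have h3 : κ * (2 * b * g + x1 - x2) + g * (2 * b * -κ + 1) + x1 * (φ d1 + -κ) = 0 := by
        linear_combination hfz
      have h4 := mul_nonneg T.hκ.le h2
      have h5 := mul_pos (by linarith : 0 < g) hpos
      have h6 := mul_nonneg (by linarith : 0 ≤ x1) hfa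
      linarith
    · obtain ⟨m, hm⟩ : ∃ m, k = 2 * m + 3 := ⟨(k - 3) / 2, by omega⟩
      have hfin := even14 T hb2 hq hq0 hq1 hm hfmk hfa hobt hRk (hstr m) hρle hρ'
      have hval := hρ m
      have i1 : 2 * m + 3 = k := by omega
      have i2 : 2 * m + 2 = k - 1 := by omega
      have i3 : 2 * m + 1 = k - 2 := by omega
      rw [i1, i2, i3] at hval
      linarith

end DY
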