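import Pool.Agent.Helper14.DY.B10
import Pool.Agent.Helper32.DY.Gap1
import Pool.Agent.Helper89.DY.Mir

/-!
# The blocks of GAP1 with `b1 = 0`, `bO = 1/2`, `b2 > 1` (MP_d13a5e_al)
-/

set_option autoImplicit false

namespace DY

open Set

variable {E : Type*} [AddCommGroup E] [Module ℝ E]
variable {Ψ : Set E} {B : E →ₗ[ℝ] E →ₗ[ℝ] ℝ} {ρ φ : E →ₗ[ℝ] ℝ} {t d1 d2 x x' : E}
variable {g x1 x2 g' x1' x2' : ℝ}

/-- `XA` gives `Cor` -/
theorem XA.cor14 (X : XA Ψ B ρ φ t d1 d2 x x' g x1 x2 g' x1' x2') :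
    Cor Ψ B ρ φ t d1 d2 x x' g x1 x2 g' x1' x2' where
  tri := X.tri
  rt := X.rt
  ft := X.ft
  xm := X.xm
  xm' := X.xm'
  e := X.e
  e' := X.e'
  cxx := X.cxx
  sp := X.sp
  obt := X.c.obt
  h1 := X.h1
  h2 := X.h2
  fz := by linarith [X.c.fz]
  fz' := by linarith [X.c'.fz]
  st := X.st
  p1 := X.p1
  p2 := X.p2
  p1' := X.p1'
  p2' := X.p2'
  rx' := by
    have := X.rx0'
    rwa [X.rx'] at this
  sum := by
    have := X.sum
    rwa [X.rx, X.rx'] at this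

/-- `b1 = 0`, `bO = 1/2`, `b2 > 1`, for the data without the strip of `d1` -/
theorem XA.half14 (X : XA Ψ B ρ φ t d1 d2 x x' g x1 x2 g' x1' x2') (h10 : B t d1 = 0)
    (hO : -B d1 d2 = 1 / 2) (hb2 : 1 < -B t d2) (hfa : 0 ≤ φ d1 + φ d2) : False := by
  have hT := X.tri
  have s2 : Str (-B t d2) (φ d2) (ρ d2) := by
    refine X.str d2 hT.hc ⟨0, 0, 1, by simp, Or.inl rfl, Or.inl rfl, Or.inr le_rfl⟩ ?_ ?_
    · intro h
      have := hT.indep 1 0 (-1) (by rw [h]; module)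
      linarith [this.1]
    · intro h
      have := hT.indep 0 1 (-1) (by rw [h]; module)
      linarith [this.2.1]
  refine X.cor14.core10 h10 (by linarith) hb2 hfa s2 fun n a c hn e ha hc => ?_
  have e1 : n = a • t + (1 : ℝ) • d1 + c • d2 := by rw [e]; module
  have hp : n ∈ C01 t d1 d2 := by
    rcases hT.pos n hn with h | h
    · exact h
    · exfalso
      obtain ⟨α, β, γ, h1, -, h2, -⟩ := h
      have h3 : (a + α) • t + (1 + β) • d1 + (c + γ) • d2 = 0 := by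
        have : (a + α) • t + (1 + β) • d1 + (c + γ) • d2 =
          (a • t + (1 : ℝ) • d1 + c • d2) + (α • t + β • d1 + γ • d2) := by module
        rw [this, ← e1, ← h1, add_neg_cancel]
      obtain ⟨-, h4, -⟩ := hT.indep _ _ _ h3
      rcases h2 with h2 | h2 <;> linarith
  refine X.str n hn hp ?_ ?_
  · intro h
    obtain ⟨-, h1, -⟩ := hT.indep (a - 1) 1 c (by
      have : (a - 1) • t + (1 : ℝ) • d1 + c • d2 = (a • t + (1 : ℝ) • d1 + c • d2) - t := by module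
      rw [this, ← e1, h, sub_self])
    norm_num at h1
  · intro h
    obtain ⟨-, -, h1⟩ := hT.indep a 0 c (by
      have : a • t + (0 : ℝ) • d1 + c • d2 = (a • t + (1 : ℝ) • d1 + c • d2) - d1 := by module
      rw [this, ← e1, h, sub_self])
    linarith

/-- [GAP1], `h = d2`, `b1 = 0`, `bO = 1/2` -/
theorem g1c (Ψ : Set E) (B : E →ₗ[ℝ] E →ₗ[ℝ] ℝ) : G1c Ψ B := by
  intro ρ φ t d1 d2 x x' g x1 x2 g' x1' x2' X _ _ _ h4 h5 _ _ hP
  obtain ⟨h10, hO, -⟩ := hP
  rw [hO] at h4 h5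
  rw [h10] at h4
  exact X.xa.half14 (by linarith) hO (by linarith) (by linarith)

end DY
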