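import Pool.Agent.Helper9.DY.Sq

/-!
# Real lemmas for the labels `b1 = 0`, `bO = 1/2` (MP_d13a5e_al)

`2 b q = q ^ 2 + 1`, `0 < q < 1`; `k ^ 2 + 1 = 2 c k`, `0 < k < 1`.
-/

set_option autoImplicit false

namespace Pool.Agent.Helper14.DY

open _root_.DY (sq)

/-- the small root -/
theorem exists_k {c : ℝ} (hc : 1 < c) : ∃ k, 0 < k ∧ k < 1 ∧ k ^ 2 + 1 = 2 * c * k := by
  have h1 : 0 ≤ c ^ 2 - 1 := by nlinarith
  have h2 := Real.sq_sqrt h1
  have h3 := Real.sqrt_nonneg (c ^ 2 - 1)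
  set w := Real.sqrt (c ^ 2 - 1) with hw
  refine ⟨c - w, ?_, ?_, ?_⟩
  · have : w < c := by
      by_contra hcon
      nlinarith [not_lt.1 hcon]
    linarith
  · have : c - 1 < w := by
      by_contra hcon
      nlinarith [not_lt.1 hcon]
    linarith
  · nlinarith

/-- the strip of a pencil of infinite order -/
theorem ult_k {c k r : ℝ} (hc : 1 < c) (hk0 : 0 < k) (hk1 : k ≤ 1) (hk : k ^ 2 + 1 ≤ 2 * c * k)
    (foot : -c ≤ r) (ult : 0 ≤ 1 + r ^ 2 + 2 * c * r) : -k ≤ r := by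
  by_contra hcon
  rw [not_le] at hcon
  have h1 : 0 ≤ (r + c) * (-k - r) := mul_nonneg (by linarith) (by linarith)
  have h2 : (c - k) * r < (c - k) * (-k) := mul_lt_mul_of_pos_left hcon (by linarith)
  nlinarith

theorem k_mono {c c' k k' : ℝ} (hk0 : 0 < k) (hk : k ^ 2 + 1 = 2 * c * k)
    (hk0' : 0 < k') (hk1' : k' < 1) (hk' : k' ^ 2 + 1 = 2 * c' * k') (hcc : c ≤ c') : k' ≤ k := by
  by_contra hcon
  rw [not_le] at hcon
  have h1 : k' * (k ^ 2 + 1) ≤ k * (k' ^ 2 + 1) := by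
    rw [hk, hk']
    have := mul_le_mul_of_nonneg_right hcc (mul_nonneg hk0.le hk0'.le)
    nlinarith
  have h2 : k * k' < 1 := by nlinarith
  have h3 : 0 < (k' - k) * (1 - k * k') := mul_pos (by linarith) (by linarith)
  nlinarith

section

variable {b q : ℝ}

theorem q_step (hq : q ^ 2 + 1 = 2 * b * q) (i : ℕ) : q * sq b (i + 1) - sq b i = q ^ (i + 1) := by
  induction i with
  | zero => simp
  | succ i ih =>
    have e1 : i + 1 + 1 = i + 2 := rfl
    rw [e1, _root_.DY.sq_succ b i]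
    have e2 : q ^ (i + 2) = q * q ^ (i + 1) := by ring
    rw [e2, ← ih]
    linear_combination (-sq b (i + 1)) * hq

theorem q_low (hq : q ^ 2 + 1 = 2 * b * q) {i : ℕ} (hi : 3 ≤ i) :
    1 + q ^ 2 + q ^ 4 + (q ^ i) ^ 2 ≤ q ^ i * sq b (i + 1) := by
  induction i, hi using Nat.le_induction with
  | base =>
    have e1 : sq b (3 + 1) = (2 * b) ^ 3 - 2 * (2 * b) := by
      show 2 * b * (2 * b * (2 * b * 1 - 0) - 1) - (2 * b * 1 - 0) = _
      ring
    rw [e1]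
    have e2 : q ^ 3 * ((2 * b) ^ 3 - 2 * (2 * b)) = (2 * b * q) ^ 3 - 2 * q ^ 2 * (2 * b * q) := by ring
    rw [e2, ← hq]
    apply le_of_eq
    ring
  | succ i hi ih =>
    have h1 := q_step hq (i + 1)
    have e1 : i + 1 + 1 = i + 2 := rfl
    rw [e1] at h1 ⊢
    have e2 : q ^ (i + 1) * sq b (i + 2) = q ^ i * (q * sq b (i + 2)) := by ring
    have e3 : q * sq b (i + 2) = sq b (i + 1) + q ^ (i + 2) := by linarith
    rw [e2, e3]
    have e4 : q ^ i * (sq b (i + 1) + q ^ (i + 2)) = q ^ i * sq b (i + 1) + (q ^ (i + 1)) ^ 2 := by ring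
    rw [e4]
    nlinarith [sq_nonneg (q ^ i)]

/-- the strip at `e_(j-1)`, `c = s_(j-1) / 2`, `i = j - 2`, against `τ_j` -/
theorem k_tau (hq : q ^ 2 + 1 = 2 * b * q) (hq0 : 0 < q) (hq1 : q < 1) {i : ℕ} (hi : 3 ≤ i) {k : ℝ}
    (hk0 : 0 < k) (hk1 : k < 1) (hk : k ^ 2 + 1 = sq b (i + 1) * k) :
    k * (q * sq b (i + 2)) ≤ 1 + (q * sq b (i + 2) - sq b (i + 1)) := by
  have h1 := q_low hq hi
  have h2 := q_step hq (i + 1)
  have e1 : i + 1 + 1 = i + 2 := rfl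
  rw [e1] at h2
  have hp0 : 0 < q ^ i := pow_pos hq0 i
  have hp3 : q ^ i ≤ q ^ 3 := pow_le_pow_of_le_one hq0.le hq1.le hi
  have e2 : q ^ (i + 2) = q ^ 2 * q ^ i := by ring
  rw [e2] at h2
  set p := q ^ i with hp
  set s := sq b (i + 1) with hs
  have hq2 : q ^ 2 < 1 := by nlinarith
  have hq3 : q ^ 3 ≤ q ^ 2 := by nlinarith
  have hp1 : p < 1 := by linarith
  have hT : k * (1 + q ^ 2 + q ^ 4) ≤ p := by
    by_contra hcon
    rw [not_le] at hcon
    have h3 : k * (1 + q ^ 2 + q ^ 4 + p ^ 2) ≤ k * (p * s) := mul_le_mul_of_nonneg_left h1 hk0.le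
    have h4 : k * (p * s) = p * (k ^ 2 + 1) := by rw [hk]; ring
    rw [h4] at h3
    have h5 : k ≤ k * (1 + q ^ 2 + q ^ 4) := by nlinarith [sq_nonneg q, sq_nonneg (q ^ 2)]
    -- `k p (k - p) ≥ k T - p`
    have h6 : k * (1 + q ^ 2 + q ^ 4) - p ≤ k * p * (k - p) := by nlinarith
    have h7 : 0 < k - p := by
      by_contra h8
      have : k * p * (k - p) ≤ 0 := mul_nonpos_of_nonneg_of_nonpos (by positivity) (by linarith)
      linarith
    have h8 : k * p * (k - p) < 1 * (k - p) := by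
      apply mul_lt_mul_of_pos_right _ h7
      nlinarith
    linarith
  have hkk : k ^ 2 ≤ q ^ 2 * p * (1 - k) := by
    have h3 : k ≤ q ^ 2 * ((1 + q ^ 2 + q ^ 4) * (1 - k)) := by
      have h4 : k ≤ q ^ 3 := by nlinarith [sq_nonneg q, sq_nonneg (q ^ 2)]
      have h5 : k * (1 + q ^ 2 + q ^ 4) ≤ q ^ 3 := by linarith
      have h6 : 1 ≤ (1 + q ^ 2 + q ^ 4) * (1 - k) := by nlinarith [sq_nonneg (q ^ 2)]
      nlinarith [sq_nonneg q]
    have h4 : k * k ≤ k * (q ^ 2 * ((1 + q ^ 2 + q ^ 4) * (1 - k))) := mul_le_mul_of_nonneg_left h3 hk0.le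
    have h5 : k * (1 + q ^ 2 + q ^ 4) * (q ^ 2 * (1 - k)) ≤ p * (q ^ 2 * (1 - k)) :=
      mul_le_mul_of_nonneg_right hT (mul_nonneg (sq_nonneg q) (by linarith))
    nlinarith
  have e3 : q * sq b (i + 2) = s + q ^ 2 * p := by linarith
  rw [e3]
  nlinarith

end

end Pool.Agent.Helper14.DY
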