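import Pool.Agent.Helper14.DY.Re

/-!
# Final inequalities for the labels `b1 = 0`, `bO = 1/2` (MP_d13a5e_al)
-/

set_option autoImplicit false

namespace Pool.Agent.Helper14.DY

section

variable {b q k s s' σ R r A B u N : ℝ}

/-- `j` odd -/
theorem fin_odd (hq : q ^ 2 + 1 = 2 * b * q) (hq0 : 0 < q) (hq1 : q < 1) (hk0 : 0 < k) (hk1 : k < 1)
    (hτ : k * (q * s) ≤ 1 + (q * s - s')) (hs0 : 0 < s) (hQ : 0 < q * s - s') (hσ : s * σ = s' * R - 1)
    (hR : 1 < R) (hr : -k ≤ r) (hA : 0 ≤ A) (hu : 1 ≤ u) (hM : 1 ≤ B - u) (hy : A < 2 * b * B - A)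
    (hn : A ^ 2 + B ^ 2 + u ^ 2 - 2 * b * A * B - u * B = 1) : 1 < -(A * σ) + B * R + u * r := by
  have hprod : (B - q * A) * (q * B - A) = q * (1 + u * (B - u)) := by
    linear_combination (-(A * B)) * hq + q * hn
  have huM : 1 ≤ 1 + u * (B - u) := by
    have := mul_nonneg (by linarith : 0 ≤ u) (by linarith : 0 ≤ B - u)
    linarith
  have hqM : q * 1 ≤ q * (1 + u * (B - u)) := mul_le_mul_of_nonneg_left huM hq0.le
  have hB0 : 0 < B := by linarith
  have hq2 : q ^ 2 ≤ 1 := pow_le_one₀ hq0.le hq1.le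
  have h1 : 0 < q * B - A := by
    by_contra hcon
    rw [not_lt] at hcon
    have h2 : 0 < (B - q * A) * (q * B - A) := by
      rw [hprod]
      linarith
    have h3 : B - q * A < 0 := by
      by_contra h4
      have := mul_nonpos_of_nonneg_of_nonpos (not_lt.1 h4) hcon
      linarith
    -- `q A < b q B ≤ B`
    have h4 : q * (2 * A) < q * (2 * b * B) := mul_lt_mul_of_pos_left (by linarith) hq0
    have h5 : q * (2 * b * B) = (q ^ 2 + 1) * B := by rw [hq]; ring
    have h6 : (q ^ 2 + 1) * B ≤ 2 * B := mul_le_mul_of_nonneg_right (by linarith) hB0.le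
    linarith
  have h2 : 0 < B - q * A := by
    have h3 : 0 < (B - q * A) * (q * B - A) := by
      rw [hprod]
      linarith
    exact (mul_pos_iff_of_pos_right h1).1 h3
  have h3 : 1 ≤ B - q * A := by
    by_contra hcon
    rw [not_le] at hcon
    have h4 : q * B - A ≤ q * (B - q * A) := by
      have h5 : q ^ 2 * A ≤ 1 * A := mul_le_mul_of_nonneg_right hq2 hA
      have h6 : q * (B - q * A) = q * B - q ^ 2 * A := by ring
      linarith
    have h5 : (B - q * A) * (q * B - A) ≤ (B - q * A) * (q * (B - q * A)) :=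
      mul_le_mul_of_nonneg_left h4 h2.le
    have h6 : (B - q * A) * (B - q * A) < 1 * 1 := mul_self_lt_mul_self h2.le hcon
    have h7 : q * ((B - q * A) * (B - q * A)) < q * (1 * 1) := mul_lt_mul_of_pos_left h6 hq0
    have h8 : (B - q * A) * (q * (B - q * A)) = q * ((B - q * A) * (B - q * A)) := by ring
    rw [hprod, h8] at h5
    linarith
  -- final step
  have hAQ := mul_nonneg hA hQ.le
  have hsD : 0 < s * (B - q * A) := mul_pos hs0 h2
  have h4 : 0 < s * B - s' * A := by
    have h5 : s * B - s' * A = s * (B - q * A) + A * (q * s - s') := by ring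
    linarith
  have h5 : (s * B - s' * A) * 1 < (s * B - s' * A) * R := mul_lt_mul_of_pos_left hR h4
  have h6 : s * (-(A * σ) + B * R + u * r) = (s * B - s' * A) * R + A + s * (u * r) := by
    linear_combination (-A) * hσ
  have h7 : s * (u * -k) ≤ s * (u * r) :=
    mul_le_mul_of_nonneg_left (mul_le_mul_of_nonneg_left hr (by linarith)) hs0.le
  have h8 : k * (q * s) * A ≤ (1 + (q * s - s')) * A := mul_le_mul_of_nonneg_right hτ hA
  have h9 : s * 1 ≤ s * ((1 - k) * (B - q * A) + k * (B - u)) := by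
    apply mul_le_mul_of_nonneg_left _ hs0.le
    have g1 : (1 - k) * 1 ≤ (1 - k) * (B - q * A) := mul_le_mul_of_nonneg_left h3 (by linarith)
    have g2 : k * 1 ≤ k * (B - u) := mul_le_mul_of_nonneg_left hM hk0.le
    linarith
  have h9' : s * ((1 - k) * (B - q * A) + k * (B - u)) =
      (s * B - s' * A) * 1 + A + s * (u * -k) + (k * (q * s) * A - (1 + (q * s - s')) * A) := by ring
  have h10 : s * 1 < s * (-(A * σ) + B * R + u * r) := by
    rw [h6]
    linarith
  exact lt_of_mul_lt_mul_left h10 hs0.le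

/-- common last step for `j` even -/
theorem last_even (hs0 : 0 < s) (hsq : s' ≤ q * s) (hσ : s * σ = s' * R - 1)
    (hR : 1 < R) (hr : -k ≤ r) (hu : 1 ≤ u) (hN : 0 ≤ N) (h1 : 0 < B - q * N)
    (h2 : 1 ≤ B - q * N - k * u) : 1 < -(N * σ) + B * R + u * r := by
  have h3 : s' * N ≤ q * s * N := mul_le_mul_of_nonneg_right hsq hN
  have hsD : 0 < s * (B - q * N) := mul_pos hs0 h1
  have h4 : 0 < s * B - s' * N := by
    have h5 : s * (B - q * N) = s * B - q * s * N := by ring
    linarith
  have h5 : (s * B - s' * N) * 1 < (s * B - s' * N) * R := mul_lt_mul_of_pos_left hR h4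
  have h6 : s * (-(N * σ) + B * R + u * r) = (s * B - s' * N) * R + N + s * (u * r) := by
    linear_combination (-N) * hσ
  have h7 : s * (u * -k) ≤ s * (u * r) :=
    mul_le_mul_of_nonneg_left (mul_le_mul_of_nonneg_left hr (by linarith)) hs0.le
  have h8 : s * 1 ≤ s * (B - q * N - k * u) := mul_le_mul_of_nonneg_left h2 hs0.le
  have h9 : s * (B - q * N - k * u) = s * B - q * s * N + s * (u * -k) := by ring
  have h10 : s * 1 < s * (-(N * σ) + B * R + u * r) := by
    rw [h6]
    linarith
  exact lt_of_mul_lt_mul_left h10 hs0.le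

/-- the norm for `j` even -/
theorem prod_even (hq : q ^ 2 + 1 = 2 * b * q)
    (hn : (u + N) ^ 2 + B ^ 2 + u ^ 2 - 2 * b * (u + N) * B - u * (u + N) = 1) :
    (B - q * u) * (q * B - u) = q * (1 + N * (2 * b * B - u - N)) := by
  linear_combination (-(u * B)) * hq + q * hn

/-- `j` even, `B > u / q` -/
theorem fin_even1 (hq : q ^ 2 + 1 = 2 * b * q) (hq0 : 0 < q) (hq1 : q < 1) (hkq : k ≤ q)
    (hs0 : 0 < s) (hsq : s' ≤ q * s) (hσ : s * σ = s' * R - 1)
    (hR : 1 < R) (hr : -k ≤ r) (hu : 1 ≤ u) (hN : 0 ≤ N) (hP : N ≤ 2 * b * B - u - N)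
    (hn : (u + N) ^ 2 + B ^ 2 + u ^ 2 - 2 * b * (u + N) * B - u * (u + N) = 1)
    (hB : u < q * B) : 1 < -(N * σ) + B * R + u * r := by
  have hprod := prod_even hq hn
  have hB0 : 0 < B := by
    by_contra hcon
    have := mul_nonpos_of_nonneg_of_nonpos hq0.le (not_lt.1 hcon)
    linarith
  have hq2 : 0 ≤ 1 - q ^ 2 := by
    have : q ^ 2 ≤ 1 := pow_le_one₀ hq0.le hq1.le
    linarith
  have hq2u : 0 ≤ u * (1 - q ^ 2) := mul_nonneg (by linarith) hq2
  have hq2N : 0 ≤ N * (1 - q ^ 2) := mul_nonneg hN hq2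
  have hα : 0 < B - q * u := by
    have h1 : 0 ≤ B * (1 - q ^ 2) := mul_nonneg hB0.le hq2
    have h2 : q * u < q * (q * B) := mul_lt_mul_of_pos_left hB hq0
    have h3 : q * (q * B) = B - B * (1 - q ^ 2) := by ring
    linarith
  have hNP : N * N ≤ N * (2 * b * B - u - N) := mul_le_mul_of_nonneg_left hP hN
  -- `α ≥ N`
  have h1 : N < B - q * u := by
    by_contra hcon
    rw [not_lt] at hcon
    have h2 : q * B - u ≤ q * (B - q * u) := by
      have : q * (B - q * u) = q * B - u + u * (1 - q ^ 2) := by ring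
      linarith
    have h3 : (B - q * u) * (q * B - u) ≤ (B - q * u) * (q * (B - q * u)) :=
      mul_le_mul_of_nonneg_left h2 hα.le
    have h4 : (B - q * u) * (B - q * u) ≤ N * N := mul_self_le_mul_self hα.le hcon
    have h5 : q * ((B - q * u) * (B - q * u)) ≤ q * (N * (2 * b * B - u - N)) :=
      mul_le_mul_of_nonneg_left (h4.trans hNP) hq0.le
    have h6 : (B - q * u) * (q * (B - q * u)) = q * ((B - q * u) * (B - q * u)) := by ring
    have h7 : q * (1 + N * (2 * b * B - u - N)) = q + q * (N * (2 * b * B - u - N)) := by ring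
    rw [hprod, h6, h7] at h3
    linarith
  have h2 : (B - q * u - q * N) * (q * (B - q * u) - N) =
      q + N * q ^ 3 * u + (1 - q ^ 2) * u * (B - q * u) := by
    linear_combination hprod + (-(B * N)) * hq
  have h3 : q ≤ (B - q * u - q * N) * (q * (B - q * u) - N) := by
    rw [h2]
    have e1 : 0 ≤ N * q ^ 3 * u := mul_nonneg (mul_nonneg hN (pow_nonneg hq0.le 3)) (by linarith)
    have e2 : 0 ≤ (1 - q ^ 2) * u * (B - q * u) := by
      have := mul_nonneg hq2u hα.le
      linarith
    linarith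
  have h4 : 0 < B - q * u - q * N := by
    have h5 : q * N ≤ 1 * N := mul_le_mul_of_nonneg_right hq1.le hN
    linarith
  have h5 : 1 ≤ B - q * u - q * N := by
    by_contra hcon
    rw [not_le] at hcon
    have h6 : q * (B - q * u) - N ≤ q * (B - q * u - q * N) := by
      have : q * (B - q * u - q * N) = q * (B - q * u) - N + N * (1 - q ^ 2) := by ring
      linarith
    have h7 : (B - q * u - q * N) * (q * (B - q * u) - N) ≤
        (B - q * u - q * N) * (q * (B - q * u - q * N)) := mul_le_mul_of_nonneg_left h6 h4.le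
    have h8 : (B - q * u - q * N) * (B - q * u - q * N) < 1 * 1 := mul_self_lt_mul_self h4.le hcon
    have h9 : q * ((B - q * u - q * N) * (B - q * u - q * N)) < q * (1 * 1) := mul_lt_mul_of_pos_left h8 hq0
    have h10 : (B - q * u - q * N) * (q * (B - q * u - q * N)) =
      q * ((B - q * u - q * N) * (B - q * u - q * N)) := by ring
    rw [h10] at h7
    linarith
  have h6 : k * u ≤ q * u := mul_le_mul_of_nonneg_right hkq (by linarith)
  have h7 : 0 < q * u := mul_pos hq0 (by linarith)
  exact last_even hs0 hsq hσ hR hr hu hN (by linarith) (by linarith)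

end

end Pool.Agent.Helper14.DY
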